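import Mathlib
import Pool.Prelude.Def_F_458e953d

namespace Pool.Agent.Work.MP_49d20d_lc

open Classical

/-- Polynomial expressions with integer coefficients: variables (named by bit strings), integer
constants (a sign and binary digits, least significant first), sums and products. -/
inductive Term : Type
  | var (name : List Bool) : Term
  | const (neg : Bool) (digits : List Bool) : Term
  | add (s t : Term) : Term
  | mul (s t : Term) : Term

/-- Quantifier-free formulas. -/
inductive Fml : Type
  | eq (s t : Term) : Fml
  | lt (s t : Term) : Fml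
  | le (s t : Term) : Fml
  | not (φ : Fml) : Fml
  | and (φ ψ : Fml) : Fml
  | or (φ ψ : Fml) : Fml

/-- The number with the given binary digits, least significant first. -/
def binVal : List Bool → ℕ
  | [] => 0
  | b :: l => b.toNat + 2 * binVal l

/-- Value of a term under an assignment of reals to the variables. -/
def Term.eval (ρ : List Bool → ℝ) : Term → ℝ
  | .var n => ρ n
  | .const neg d => if neg then -(binVal d : ℝ) else (binVal d : ℝ)
  | .add s t => s.eval ρ + t.eval ρ
  | .mul s t => s.eval ρ * t.eval ρ

/-- Truth of a formula under an assignment. -/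
def Fml.Holds (ρ : List Bool → ℝ) : Fml → Prop
  | .eq s t => s.eval ρ = t.eval ρ
  | .lt s t => s.eval ρ < t.eval ρ
  | .le s t => s.eval ρ ≤ t.eval ρ
  | .not φ => ¬ φ.Holds ρ
  | .and φ ψ => φ.Holds ρ ∧ ψ.Holds ρ
  | .or φ ψ => φ.Holds ρ ∨ ψ.Holds ρ

/-- Symbols of a bit string: `1` for the digit 0, `2` for the digit 1, then the end mark `0`. -/
def bitsSyms (l : List Bool) : List ℕ := l.map (fun b => b.toNat + 1) ++ [0]

/-- A term in Polish notation, over the symbols `0, ..., 7`. -/
def Term.syms : Term → List ℕ
  | .var n => 3 :: bitsSyms n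
  | .const neg d => (if neg then 5 else 4) :: bitsSyms d
  | .add s t => 6 :: (s.syms ++ t.syms)
  | .mul s t => 7 :: (s.syms ++ t.syms)

/-- A formula in Polish notation, over the symbols `0, ..., 13`. -/
def Fml.syms : Fml → List ℕ
  | .eq s t => 8 :: (s.syms ++ t.syms)
  | .lt s t => 9 :: (s.syms ++ t.syms)
  | .le s t => 10 :: (s.syms ++ t.syms)
  | .not φ => 11 :: φ.syms
  | .and φ ψ => 12 :: (φ.syms ++ ψ.syms)
  | .or φ ψ => 13 :: (φ.syms ++ ψ.syms)

/-- A symbol written with four bits. -/
def symBits (k : ℕ) : List Bool := [k.testBit 0, k.testBit 1, k.testBit 2, k.testBit 3]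

/-- The bit string of a formula. -/
def Fml.code (φ : Fml) : List Bool := φ.syms.flatMap symBits

/-- The existential theory of the reals: codes of formulas that hold for some real values of
their variables. -/
noncomputable def ETR : N68a2faeb.DecisionProblem :=
  fun x => decide (∃ φ : Fml, x = φ.code ∧ ∃ ρ : List Bool → ℝ, φ.Holds ρ)

/-- A zero pattern (`true` is `*`, `false` is `0`), written row by row. -/
def patBits {n : ℕ} (P : Matrix (Fin n) (Fin n) Bool) : List Bool :=
  (List.finRange n).flatMap (fun i => (List.finRange n).map (fun j => P i j))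

/-- The real matrix `M` fits the pattern `P`. -/
def Fits {n : ℕ} (P : Matrix (Fin n) (Fin n) Bool) (M : Matrix (Fin n) (Fin n) ℝ) : Prop :=
  ∀ i j, P i j = false → M i j = 0

/-- Constrained matrix invertibility over the reals. -/
noncomputable def CI : N68a2faeb.DecisionProblem :=
  fun x => decide (∃ (n : ℕ) (A B : Matrix (Fin n) (Fin n) Bool), x = patBits A ++ patBits B ∧
    ∃ M N : Matrix (Fin n) (Fin n) ℝ, Fits A M ∧ Fits B N ∧ M * N = 1)

end Pool.Agent.Work.MP_49d20d_lc
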