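import Pool.Agent.Work.MP_49d20d_lc.Defs
import Pool.Agent.Lib.Cx.LSNat
import Pool.Agent.Lib.Cx.LSList

-- merged part: Pool.Agent.Work.MP_49d20d_lc.Parse
section
/-! Positional analysis of Polish notation. -/

namespace Pool.Agent.Work.MP_49d20d_lc

open Pool.Agent.Lib.Cx

def arity (k : ℕ) : ℕ := if k = 0 then 0 else if k ≤ 5 ∨ k = 11 then 1 else 2
def sort (k : ℕ) : ℕ := if k ≤ 2 then 0 else if k ≤ 7 then 1 else 2
def csort (k : ℕ) : ℕ := if k ≤ 5 then 0 else if k ≤ 10 then 1 else 2

/-- Untyped syntax trees. -/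
inductive UT : Type
  | leaf : UT
  | un (k : ℕ) (a : UT) : UT
  | bin (k : ℕ) (a b : UT) : UT

def UT.syms : UT → List ℕ
  | .leaf => [0]
  | .un k a => k :: a.syms
  | .bin k a b => k :: (a.syms ++ b.syms)

def UT.head : UT → ℕ
  | .leaf => 0
  | .un k _ => k
  | .bin k _ _ => k

@[simp] theorem head_leaf : UT.leaf.head = 0 := rfl
@[simp] theorem head_un (k : ℕ) (a : UT) : (UT.un k a).head = k := rfl
@[simp] theorem head_bin (k : ℕ) (a b : UT) : (UT.bin k a b).head = k := rfl

def UT.WS : UT → Prop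
  | .leaf => True
  | .un k a => arity k = 1 ∧ sort a.head = csort k ∧ a.WS
  | .bin k a b => arity k = 2 ∧ k ≤ 13 ∧ sort a.head = csort k ∧ sort b.head = csort k ∧ a.WS ∧ b.WS

noncomputable def op1 (k : ℕ) (x : ℝ) : ℝ :=
  if k = 1 then 2 * x else if k = 2 then 1 + 2 * x else if k = 4 then x else if k = 5 then -x
  else 1 - x

open Classical in
noncomputable def op2 (k : ℕ) (x y : ℝ) : ℝ :=
  if k = 6 then x + y else if k = 7 then x * y else if k = 8 then (if x = y then 1 else 0)
  else if k = 9 then (if x < y then 1 else 0) else if k = 10 then (if x ≤ y then 1 else 0)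
  else if k = 12 then x * y else x + y - x * y

noncomputable def UT.val (σ : List ℕ → ℝ) : UT → ℝ
  | .leaf => 0
  | .un k a => if k = 3 then σ a.syms else op1 k (a.val σ)
  | .bin k a b => op2 k (a.val σ) (b.val σ)

def numUT : List Bool → UT
  | [] => .leaf
  | b :: l => .un (b.toNat + 1) (numUT l)

def Term.toUT : Term → UT
  | .var n => .un 3 (numUT n)
  | .const neg d => .un (if neg then 5 else 4) (numUT d)
  | .add s t => .bin 6 s.toUT t.toUT
  | .mul s t => .bin 7 s.toUT t.toUT

def Fml.toUT : Fml → UT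
  | .eq s t => .bin 8 s.toUT t.toUT
  | .lt s t => .bin 9 s.toUT t.toUT
  | .le s t => .bin 10 s.toUT t.toUT
  | .not φ => .un 11 φ.toUT
  | .and φ ψ => .bin 12 φ.toUT ψ.toUT
  | .or φ ψ => .bin 13 φ.toUT ψ.toUT

theorem numUT_syms (l : List Bool) : (numUT l).syms = bitsSyms l := by
  induction l with
  | nil => rfl
  | cons b l ih => simp [numUT, UT.syms, ih, bitsSyms]

theorem numUT_ws (l : List Bool) : (numUT l).WS ∧ sort (numUT l).head = 0 := by
  induction l with
  | nil => exact ⟨trivial, rfl⟩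
  | cons b l ih => cases b <;> simp [numUT, UT.WS, arity, csort, ih] <;> simp [sort]

theorem numUT_val (σ : List ℕ → ℝ) (l : List Bool) : (numUT l).val σ = binVal l := by
  induction l with
  | nil => simp [numUT, UT.val, binVal]
  | cons b l ih => cases b <;> simp [numUT, UT.val, binVal, op1, ih]

theorem Term.toUT_syms (t : Term) : t.toUT.syms = t.syms := by
  induction t <;> simp [Term.toUT, UT.syms, Term.syms, numUT_syms, *]

theorem Term.toUT_ws (t : Term) : t.toUT.WS ∧ sort t.toUT.head = 1 := by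
  induction t with
  | var n => simp [Term.toUT, UT.WS, arity, csort, numUT_ws]; simp [sort]
  | const neg d => cases neg <;> simp [Term.toUT, UT.WS, arity, csort, numUT_ws] <;>
      simp [sort]
  | add s t h1 h2 => simp [Term.toUT, UT.WS, arity, csort, h1, h2]; simp [sort]
  | mul s t h1 h2 => simp [Term.toUT, UT.WS, arity, csort, h1, h2]; simp [sort]

theorem Term.toUT_val (σ : List ℕ → ℝ) (t : Term) :
    t.toUT.val σ = t.eval (fun n => σ (bitsSyms n)) := by
  induction t with
  | var n => simp [Term.toUT, UT.val, Term.eval, numUT_syms]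
  | const neg d => cases neg <;> simp [Term.toUT, UT.val, Term.eval, op1, numUT_val]
  | add s t h1 h2 => simp [Term.toUT, UT.val, Term.eval, op2, h1, h2]
  | mul s t h1 h2 => simp [Term.toUT, UT.val, Term.eval, op2, h1, h2]

theorem Fml.toUT_syms (φ : Fml) : φ.toUT.syms = φ.syms := by
  induction φ <;> simp [Fml.toUT, UT.syms, Fml.syms, Term.toUT_syms, *]

theorem Fml.toUT_ws (φ : Fml) : φ.toUT.WS ∧ sort φ.toUT.head = 2 := by
  induction φ <;> simp [Fml.toUT, UT.WS, arity, csort, Term.toUT_ws, *] <;> simp [sort]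

open Classical in
theorem Fml.toUT_val (σ : List ℕ → ℝ) (φ : Fml) :
    φ.toUT.val σ = if φ.Holds (fun n => σ (bitsSyms n)) then 1 else 0 := by
  induction φ with
  | eq s t => simp [Fml.toUT, UT.val, Fml.Holds, op2, Term.toUT_val]
  | lt s t => simp [Fml.toUT, UT.val, Fml.Holds, op2, Term.toUT_val]
  | le s t => simp [Fml.toUT, UT.val, Fml.Holds, op2, Term.toUT_val]
  | not φ h =>
    by_cases a : φ.Holds (fun n => σ (bitsSyms n)) <;> simp [Fml.toUT, UT.val, Fml.Holds, op1, h, a]
  | and φ ψ h1 h2 =>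
    by_cases a : φ.Holds (fun n => σ (bitsSyms n)) <;>
      by_cases b : ψ.Holds (fun n => σ (bitsSyms n)) <;>
      simp [Fml.toUT, UT.val, Fml.Holds, op2, h1, h2, a, b]
  | or φ ψ h1 h2 =>
    by_cases a : φ.Holds (fun n => σ (bitsSyms n)) <;>
      by_cases b : ψ.Holds (fun n => σ (bitsSyms n)) <;>
      simp [Fml.toUT, UT.val, Fml.Holds, op2, h1, h2, a, b]

theorem ws_typed (u : UT) (h : u.WS) :
    (sort u.head = 0 → ∃ l, u = numUT l) ∧ (sort u.head = 1 → ∃ t : Term, u = t.toUT) ∧
      (sort u.head = 2 → ∃ φ : Fml, u = φ.toUT) := by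
  induction u with
  | leaf => exact ⟨fun _ => ⟨[], rfl⟩, by simp [UT.head, sort], by simp [UT.head, sort]⟩
  | un k a ih =>
    obtain ⟨h1, h2, h3⟩ := h
    obtain ⟨i0, -, i2⟩ := ih h3
    have hk : k = 1 ∨ k = 2 ∨ k = 3 ∨ k = 4 ∨ k = 5 ∨ k = 11 := by
      unfold arity at h1
      split_ifs at h1 <;> omega
    rcases hk with rfl | rfl | rfl | rfl | rfl | rfl
    · obtain ⟨l, rfl⟩ := i0 h2
      exact ⟨fun _ => ⟨false :: l, rfl⟩, by simp [UT.head, sort], by simp [UT.head, sort]⟩
    · obtain ⟨l, rfl⟩ := i0 h2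
      exact ⟨fun _ => ⟨true :: l, rfl⟩, by simp [UT.head, sort], by simp [UT.head, sort]⟩
    · obtain ⟨l, rfl⟩ := i0 h2
      exact ⟨by simp [UT.head, sort], fun _ => ⟨.var l, rfl⟩, by simp [UT.head, sort]⟩
    · obtain ⟨l, rfl⟩ := i0 h2
      exact ⟨by simp [UT.head, sort], fun _ => ⟨.const false l, rfl⟩, by simp [UT.head, sort]⟩
    · obtain ⟨l, rfl⟩ := i0 h2
      exact ⟨by simp [UT.head, sort], fun _ => ⟨.const true l, rfl⟩, by simp [UT.head, sort]⟩
    · obtain ⟨l, rfl⟩ := i2 h2
      exact ⟨by simp [UT.head, sort], by simp [UT.head, sort], fun _ => ⟨.not l, rfl⟩⟩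
  | bin k a b iha ihb =>
    obtain ⟨h1, h0, h2, h3, h4, h5⟩ := h
    obtain ⟨-, a1, a2⟩ := iha h4
    obtain ⟨-, b1, b2⟩ := ihb h5
    have hk : k = 6 ∨ k = 7 ∨ k = 8 ∨ k = 9 ∨ k = 10 ∨ k = 12 ∨ k = 13 := by
      unfold arity at h1
      split_ifs at h1 <;> omega
    rcases hk with rfl | rfl | rfl | rfl | rfl | rfl | rfl
    · obtain ⟨s, rfl⟩ := a1 h2
      obtain ⟨t, rfl⟩ := b1 h3
      exact ⟨by simp [UT.head, sort], fun _ => ⟨.add s t, rfl⟩, by simp [UT.head, sort]⟩
    · obtain ⟨s, rfl⟩ := a1 h2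
      obtain ⟨t, rfl⟩ := b1 h3
      exact ⟨by simp [UT.head, sort], fun _ => ⟨.mul s t, rfl⟩, by simp [UT.head, sort]⟩
    · obtain ⟨s, rfl⟩ := a1 h2
      obtain ⟨t, rfl⟩ := b1 h3
      exact ⟨by simp [UT.head, sort], by simp [UT.head, sort], fun _ => ⟨.eq s t, rfl⟩⟩
    · obtain ⟨s, rfl⟩ := a1 h2
      obtain ⟨t, rfl⟩ := b1 h3
      exact ⟨by simp [UT.head, sort], by simp [UT.head, sort], fun _ => ⟨.lt s t, rfl⟩⟩
    · obtain ⟨s, rfl⟩ := a1 h2
      obtain ⟨t, rfl⟩ := b1 h3
      exact ⟨by simp [UT.head, sort], by simp [UT.head, sort], fun _ => ⟨.le s t, rfl⟩⟩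
    · obtain ⟨s, rfl⟩ := a2 h2
      obtain ⟨t, rfl⟩ := b2 h3
      exact ⟨by simp [UT.head, sort], by simp [UT.head, sort], fun _ => ⟨.and s t, rfl⟩⟩
    · obtain ⟨s, rfl⟩ := a2 h2
      obtain ⟨t, rfl⟩ := b2 h3
      exact ⟨by simp [UT.head, sort], by simp [UT.head, sort], fun _ => ⟨.or s t, rfl⟩⟩

def unBits (l : List ℕ) : List Bool := l.dropLast.map (fun k => decide (k = 2))

theorem unBits_bitsSyms (n : List Bool) : unBits (bitsSyms n) = n := by
  simp only [unBits, bitsSyms, List.dropLast_concat, List.map_map]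
  conv_rhs => rw [← List.map_id n]
  congr 1
  funext b
  cases b <;> rfl

theorem sat_iff_ut (ts : List ℕ) :
    (∃ φ : Fml, ts = φ.syms ∧ ∃ ρ, φ.Holds ρ) ↔
      ∃ u : UT, u.WS ∧ sort u.head = 2 ∧ ts = u.syms ∧ ∃ σ, u.val σ = 1 := by
  constructor
  · rintro ⟨φ, rfl, ρ, h⟩
    refine ⟨φ.toUT, φ.toUT_ws.1, φ.toUT_ws.2, φ.toUT_syms.symm, fun l => ρ (unBits l), ?_⟩
    rw [Fml.toUT_val]
    simp [unBits_bitsSyms, h]
  · rintro ⟨u, h1, h2, rfl, σ, h⟩
    obtain ⟨φ, rfl⟩ := (ws_typed u h1).2.2 h2
    refine ⟨φ, φ.toUT_syms, fun n => σ (bitsSyms n), ?_⟩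
    rw [Fml.toUT_val] at h
    by_contra hc
    simp [hc] at h

/-! Sizes of subtrees by counting arities. -/

def arSum (l : List ℕ) : ℕ := (l.map arity).sum

theorem arSum_append (l l' : List ℕ) : arSum (l ++ l') = arSum l + arSum l' := by simp [arSum]

theorem arSum_cons (k : ℕ) (l : List ℕ) : arSum (k :: l) = arity k + arSum l := by simp [arSum]

theorem ws_bal (u : UT) (h : u.WS) : arSum u.syms + 1 = u.syms.length ∧
    ∀ d, d < u.syms.length → d < arSum (u.syms.take d) + 1 := by
  induction u with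
  | leaf => simp [UT.syms, arSum, arity]
  | un k a ih =>
    obtain ⟨h1, -, h3⟩ := h
    obtain ⟨i1, i2⟩ := ih h3
    refine ⟨by simp [UT.syms, arSum_cons, h1]; omega, fun d hd => ?_⟩
    cases d with
    | zero => omega
    | succ d =>
      have := i2 d (by simpa [UT.syms] using hd)
      simp only [UT.syms, List.take_succ_cons, arSum_cons, h1]
      omega
  | bin k a b iha ihb =>
    obtain ⟨h1, -, -, -, h4, h5⟩ := h
    obtain ⟨a1, a2⟩ := iha h4
    obtain ⟨b1, b2⟩ := ihb h5
    refine ⟨by simp [UT.syms, arSum_cons, arSum_append, h1]; omega, fun d hd => ?_⟩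
    cases d with
    | zero => omega
    | succ d =>
      simp only [UT.syms, List.length_cons, List.length_append] at hd
      simp only [UT.syms, List.take_succ_cons, arSum_cons, h1, List.take_append, arSum_append]
      by_cases h : d < a.syms.length
      · have := a2 d h
        omega
      · have := b2 (d - a.syms.length) (by omega)
        rw [List.take_of_length_le (by omega)]
        omega

def subSz (ts : List ℕ) (i : ℕ) : ℕ :=
  findLt (ts.length + 1) (fun d => decide (arSum ((ts.drop i).take d) + 1 = d))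

def At (ts : List ℕ) (i : ℕ) (u : UT) : Prop := ∃ rest, ts.drop i = u.syms ++ rest

theorem At.le {ts : List ℕ} {i : ℕ} {u : UT} (h : At ts i u) : u.syms.length ≤ ts.length - i := by
  obtain ⟨r, h⟩ := h
  have := congrArg List.length h
  simp at this
  omega

theorem syms_pos (u : UT) : 0 < u.syms.length := by cases u <;> simp [UT.syms]

theorem At.subSz {ts : List ℕ} {i : ℕ} {u : UT} (h : At ts i u) (hw : u.WS) :
    subSz ts i = u.syms.length := by
  have hle := h.le
  obtain ⟨r, h⟩ := h
  obtain ⟨b1, b2⟩ := ws_bal u hw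
  refine findLt_eq (by omega) (fun _ => ?_) (fun d hd => ?_)
  · simp [h, b1]
  · have := b2 d hd
    rw [h, List.take_append_of_le_length hd.le]
    simp only [decide_eq_false_iff_not]
    omega

def tk (ts : List ℕ) (i : ℕ) : ℕ := ts.getD i 0

def c2 (ts : List ℕ) (i : ℕ) : ℕ := i + 1 + subSz ts (i + 1)

theorem At.tk {ts : List ℕ} {i : ℕ} {u : UT} (h : At ts i u) : tk ts i = u.head := by
  obtain ⟨r, h⟩ := h
  have : ts[i]? = some u.head := by
    rw [← Nat.add_zero i, ← List.getElem?_drop, h]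
    cases u <;> simp [UT.syms, UT.head]
  simp [Pool.Agent.Work.MP_49d20d_lc.tk, List.getD_eq_getElem?_getD, this]

theorem At.un {ts : List ℕ} {i k : ℕ} {a : UT} (h : At ts i (.un k a)) : At ts (i + 1) a := by
  obtain ⟨r, h⟩ := h
  exact ⟨r, by rw [← List.drop_drop, h]; simp [UT.syms]⟩

theorem At.binL {ts : List ℕ} {i k : ℕ} {a b : UT} (h : At ts i (.bin k a b)) :
    At ts (i + 1) a := by
  obtain ⟨r, h⟩ := h
  exact ⟨b.syms ++ r, by rw [← List.drop_drop, h]; simp [UT.syms]⟩

theorem At.binR {ts : List ℕ} {i k : ℕ} {a b : UT} (h : At ts i (.bin k a b)) :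
    At ts (i + 1 + a.syms.length) b := by
  obtain ⟨r, h⟩ := h
  exact ⟨r, by rw [← List.drop_drop, ← List.drop_drop, h]; simp [UT.syms]⟩

theorem At.lt {ts : List ℕ} {i : ℕ} {u : UT} (h : At ts i u) : i < ts.length := by
  have := h.le
  have := syms_pos u
  omega

theorem at_inside (u : UT) (hw : u.WS) (ts : List ℕ) : ∀ i, At ts i u → ∀ j, i ≤ j →
    j < i + u.syms.length → ∃ y : UT, y.WS ∧ At ts j y := by
  induction u with
  | leaf =>
    intro i h j h1 h2
    have : j = i := by simp [UT.syms] at h2; omega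
    exact ⟨_, hw, this ▸ h⟩
  | un k a ih =>
    intro i h j h1 h2
    by_cases e : j = i
    · exact ⟨_, hw, e ▸ h⟩
    · exact ih hw.2.2 _ h.un j (by omega) (by simp [UT.syms] at h2; omega)
  | bin k a b iha ihb =>
    intro i h j h1 h2
    by_cases e : j = i
    · exact ⟨_, hw, e ▸ h⟩
    · by_cases e2 : j < i + 1 + a.syms.length
      · exact iha hw.2.2.2.2.1 _ h.binL j (by omega) e2
      · exact ihb hw.2.2.2.2.2 _ h.binR j (by omega) (by simp [UT.syms] at h2; omega)

/-- Local well-formedness check at position `i`. -/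
def locOk (ts : List ℕ) (i : ℕ) : Bool :=
  decide (tk ts i ≤ 13) &&
    (decide (arity (tk ts i) = 0) ||
      (decide (i + 1 < ts.length) && decide (sort (tk ts (i + 1)) = csort (tk ts i)))) &&
    (!decide (arity (tk ts i) = 2) ||
      (decide (c2 ts i < ts.length) && decide (sort (tk ts (c2 ts i)) = csort (tk ts i))))

def wf (ts : List ℕ) : Bool :=
  decide (0 < ts.length) && decide (sort (tk ts 0) = 2) && decide (subSz ts 0 = ts.length) &&
    (List.range ts.length).all (fun i => locOk ts i)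

theorem At.locOk {ts : List ℕ} {i : ℕ} {u : UT} (h : At ts i u) (hw : u.WS) :
    locOk ts i = true := by
  have h0 := h.tk
  cases u with
  | leaf => simp [Pool.Agent.Work.MP_49d20d_lc.locOk, h0, arity]
  | un k a =>
    have hk : k ≤ 13 := by
      have := hw.1
      unfold arity at this
      split_ifs at this <;> omega
    simp [Pool.Agent.Work.MP_49d20d_lc.locOk, h0, hw.1, h.un.lt, h.un.tk, hw.2.1, hk]
  | bin k a b =>
    obtain ⟨h1, h2, h3, h4, h5, h6⟩ := hw
    have hc : c2 ts i = i + 1 + a.syms.length := by rw [c2, h.binL.subSz h5]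
    simp [Pool.Agent.Work.MP_49d20d_lc.locOk, h0, h1, h2, h.binL.lt, h.binL.tk, h3, hc,
      h.binR.lt, h.binR.tk, h4]

theorem wf_syms (u : UT) (hw : u.WS) (hs : sort u.head = 2) : wf u.syms = true := by
  have h0 : At u.syms 0 u := ⟨[], by simp⟩
  simp only [wf, Bool.and_eq_true, decide_eq_true_eq, List.all_eq_true, List.mem_range]
  refine ⟨⟨⟨syms_pos u, by rw [h0.tk, hs]⟩, h0.subSz hw⟩, fun i hi => ?_⟩
  obtain ⟨y, hy, h⟩ := at_inside u hw _ 0 h0 i (by omega) (by omega)
  exact h.locOk hy

/-- The subtree starting at position `i`. -/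
def nd (ts : List ℕ) (i : ℕ) : UT :=
  if i < ts.length then
    if arity (tk ts i) = 0 then .leaf
    else if arity (tk ts i) = 1 then .un (tk ts i) (nd ts (i + 1))
    else .bin (tk ts i) (nd ts (i + 1)) (nd ts (i + 1 + subSz ts (i + 1)))
  else .leaf
termination_by ts.length - i
decreasing_by all_goals omega

theorem arity_cases (k : ℕ) : arity k = 0 ∨ arity k = 1 ∨ arity k = 2 := by
  unfold arity
  split_ifs <;> simp

theorem drop_tk {ts : List ℕ} {i : ℕ} (h : i < ts.length) :
    ts.drop i = tk ts i :: ts.drop (i + 1) := by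
  rw [List.drop_eq_getElem_cons h]
  simp [tk, List.getD_eq_getElem?_getD, h]

theorem nd_at (ts : List ℕ) (h : ∀ i, i < ts.length → locOk ts i = true) (m : ℕ) :
    ∀ i, i < ts.length → ts.length - i ≤ m → (nd ts i).WS ∧ At ts i (nd ts i) := by
  induction m with
  | zero => intro i h1 h2; omega
  | succ m ih =>
    intro i h1 h2
    have hl := h i h1
    simp only [locOk, Bool.and_eq_true, decide_eq_true_eq, Bool.or_eq_true, Bool.not_eq_eq_eq_not,
      Bool.not_true, decide_eq_false_iff_not] at hl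
    obtain ⟨⟨l1, l2⟩, l3⟩ := hl
    rw [nd, if_pos h1]
    rcases arity_cases (tk ts i) with e | e | e
    · rw [if_pos e]
      have : tk ts i = 0 := by
        unfold arity at e
        split_ifs at e
        omega
      exact ⟨trivial, ts.drop (i + 1), by rw [drop_tk h1, this]; rfl⟩
    · rw [if_neg (by omega), if_pos e]
      obtain ⟨a1, a2⟩ := l2.resolve_left (by omega)
      obtain ⟨w, r, hr⟩ := ih (i + 1) a1 (by omega)
      refine ⟨⟨e, ?_, w⟩, r, by rw [drop_tk h1, hr]; rfl⟩
      rw [← At.tk ⟨r, hr⟩, a2]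
    · rw [if_neg (by omega), if_neg (by omega)]
      obtain ⟨a1, a2⟩ := l2.resolve_left (by omega)
      obtain ⟨b1, b2⟩ := l3.resolve_left (by omega)
      obtain ⟨w, r, hr⟩ := ih (i + 1) a1 (by omega)
      unfold c2 at b1 b2
      obtain ⟨w', r', hr'⟩ := ih _ b1 (by omega)
      refine ⟨⟨e, l1, ?_, ?_, w, w'⟩, r', ?_⟩
      · rw [← At.tk ⟨r, hr⟩, a2]
      · rw [← At.tk ⟨r', hr'⟩, b2]
      · have hs := At.subSz ⟨r, hr⟩ w
        have : r = ts.drop (i + 1 + subSz ts (i + 1)) := by
          rw [← List.drop_drop, hr, hs]; simp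
        rw [drop_tk h1, hr, this, hr']
        simp [UT.syms]

theorem nd_eq (ts : List ℕ) (u : UT) (hw : u.WS) : ∀ i, At ts i u → nd ts i = u := by
  induction u with
  | leaf =>
    intro i h
    rw [nd, if_pos h.lt, h.tk]
    simp [UT.head, arity]
  | un k a ih =>
    intro i h
    rw [nd, if_pos h.lt, h.tk, ih hw.2.2 _ h.un]
    simp [UT.head, hw.1]
  | bin k a b iha ihb =>
    intro i h
    rw [nd, if_pos h.lt, h.tk, iha hw.2.2.2.2.1 _ h.binL, h.binL.subSz hw.2.2.2.2.1,
      ihb hw.2.2.2.2.2 _ h.binR]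
    simp [UT.head, hw.1]

def subAt (ts : List ℕ) (i : ℕ) : List ℕ := (ts.drop i).take (subSz ts i)

theorem At.subAt {ts : List ℕ} {i : ℕ} {u : UT} (h : At ts i u) (hw : u.WS) :
    subAt ts i = u.syms := by
  unfold Pool.Agent.Work.MP_49d20d_lc.subAt
  rw [h.subSz hw]
  obtain ⟨r, h⟩ := h
  simp [h]

/-- The local equation at position `i`. -/
def Local (ts : List ℕ) (v : ℕ → ℝ) (i : ℕ) : Prop :=
  if tk ts i = 3 then
    ∀ j, j < ts.length → tk ts j = 3 → subAt ts (i + 1) = subAt ts (j + 1) → v i = v j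
  else v i = if arity (tk ts i) = 0 then 0 else if arity (tk ts i) = 1 then op1 (tk ts i) (v (i + 1))
    else op2 (tk ts i) (v (i + 1)) (v (c2 ts i))

theorem sat_iff_local (ts : List ℕ) :
    (∃ φ : Fml, ts = φ.syms ∧ ∃ ρ, φ.Holds ρ) ↔
      wf ts = true ∧ ∃ v : ℕ → ℝ, v 0 = 1 ∧ ∀ i, i < ts.length → Local ts v i := by
  classical
  rw [sat_iff_ut]
  have key : wf ts = true → ∀ i, i < ts.length → (nd ts i).WS ∧ At ts i (nd ts i) := by
    intro h i hi
    simp only [wf, Bool.and_eq_true, decide_eq_true_eq, List.all_eq_true, List.mem_range] at h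
    exact nd_at ts h.2 _ i hi le_rfl
  have three : ∀ i, i < ts.length → tk ts i = 3 → nd ts i = .un 3 (nd ts (i + 1)) := by
    intro i hi h
    rw [nd, if_pos hi, h]
    simp [arity]
  constructor
  · rintro ⟨u, h1, h2, h3, σ, h⟩
    have hwf : wf ts = true := h3 ▸ wf_syms u h1 h2
    refine ⟨hwf, fun i => (nd ts i).val σ, ?_, fun i hi => ?_⟩
    · simp only
      rw [nd_eq ts u h1 0 ⟨[], by simp [h3]⟩, h]
    · unfold Local
      simp only
      split_ifs with e e0 e1
      · intro j hj ej hs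
        obtain ⟨w1, a1⟩ := key hwf i hi
        obtain ⟨w2, a2⟩ := key hwf j hj
        rw [three i hi e] at w1 a1 ⊢
        rw [three j hj ej] at w2 a2 ⊢
        rw [a1.un.subAt w1.2.2, a2.un.subAt w2.2.2] at hs
        simp [UT.val, hs]
      · rw [nd, if_pos hi, if_pos e0]; rfl
      · rw [nd, if_pos hi, if_neg e0, if_pos e1]; simp [UT.val, e]
      · rw [nd, if_pos hi, if_neg e0, if_neg e1]; simp [UT.val, c2]
  · rintro ⟨hwf, v, h0, h⟩
    have hk := key hwf
    simp only [wf, Bool.and_eq_true, decide_eq_true_eq, List.all_eq_true, List.mem_range] at hwf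
    obtain ⟨⟨⟨w1, w2⟩, w3⟩, w4⟩ := hwf
    obtain ⟨r1, r2⟩ := hk 0 w1
    let σ : List ℕ → ℝ := fun l =>
      if h : ∃ j, j < ts.length ∧ tk ts j = 3 ∧ l = subAt ts (j + 1) then v h.choose else 0
    have hv : ∀ m i, i < ts.length → ts.length - i ≤ m → v i = (nd ts i).val σ := by
      intro m
      induction m with
      | zero => intro i h1 h2; omega
      | succ m ih =>
        intro i h1 h2
        have hl := h i h1
        obtain ⟨s1, s2⟩ := hk i h1
        unfold Local at hl
        split_ifs at hl with e e0 e1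
        · rw [three i h1 e] at s1 s2 ⊢
          have hex : ∃ j, j < ts.length ∧ tk ts j = 3 ∧ (nd ts (i + 1)).syms = subAt ts (j + 1) :=
            ⟨i, h1, e, (s2.un.subAt s1.2.2).symm⟩
          simp only [UT.val, if_true, σ, hex, dif_pos]
          obtain ⟨b1, b2, b3⟩ := hex.choose_spec
          exact hl _ b1 b2 ((s2.un.subAt s1.2.2).trans b3)
        · rw [nd, if_pos h1, if_pos e0, hl]; rfl
        · rw [nd, if_pos h1, if_neg e0, if_pos e1] at s2 ⊢
          rw [hl, ih (i + 1) s2.un.lt (by omega)]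
          simp [UT.val, e]
        · rw [nd, if_pos h1, if_neg e0, if_neg e1] at s1 s2 ⊢
          have b1 := s2.binR.lt
          rw [← s2.binL.subSz s1.2.2.2.2.1] at b1
          rw [hl, ih (i + 1) s2.binL.lt (by omega), c2, ih _ b1 (by omega)]
          simp [UT.val]
    refine ⟨nd ts 0, r1, by rw [← r2.tk, w2], ?_, σ, by rw [← hv _ 0 w1 le_rfl, h0]⟩
    have := r2.subAt r1
    rw [← this, subAt, w3]
    simp

end Pool.Agent.Work.MP_49d20d_lc
end

-- merged part: Pool.Agent.Work.MP_49d20d_lc.Geo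
section
/-! From point-line configurations with zero patterns to constrained invertibility. -/

namespace Pool.Agent.Work.MP_49d20d_lc

open Finset

def matBits (n : ℕ) (f : ℕ → ℕ → Bool) : List Bool :=
  (List.range n).flatMap (fun i => (List.range n).map (fun j => f i j))

theorem patBits_of (n : ℕ) (f : ℕ → ℕ → Bool) :
    patBits (Matrix.of (fun i j : Fin n => f i.val j.val)) = matBits n f := by
  unfold patBits matBits
  rw [← List.map_coe_finRange_eq_range, List.flatMap_map]
  congr 1
  funext i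
  rw [List.map_map]
  rfl

theorem patBits_length {n : ℕ} (P : Matrix (Fin n) (Fin n) Bool) : (patBits P).length = n * n := by
  simp [patBits, List.length_flatMap]

theorem flatMap_inj {α β : Type} (k : ℕ) (f g : α → List β) (hf : ∀ a, (f a).length = k)
    (hg : ∀ a, (g a).length = k) (l : List α) (h : l.flatMap f = l.flatMap g) :
    ∀ a ∈ l, f a = g a := by
  induction l with
  | nil => simp
  | cons b l ih =>
    rw [List.flatMap_cons, List.flatMap_cons] at h
    obtain ⟨h1, h2⟩ := List.append_inj h (by rw [hf, hg])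
    intro a ha
    rcases List.mem_cons.1 ha with rfl | ha
    · exact h1
    · exact ih h2 a ha

theorem patBits_inj {n : ℕ} (P P' : Matrix (Fin n) (Fin n) Bool) (h : patBits P = patBits P') :
    P = P' := by
  ext i j
  have h1 := flatMap_inj n _ _ (by simp) (by simp) _ h i (List.mem_finRange i)
  exact List.map_inj_left.1 h1 j (List.mem_finRange j)

theorem CI_patBits {n : ℕ} (A B : Matrix (Fin n) (Fin n) Bool) :
    CI (patBits A ++ patBits B) = true ↔
      ∃ M N : Matrix (Fin n) (Fin n) ℝ, Fits A M ∧ Fits B N ∧ M * N = 1 := by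
  simp only [CI, decide_eq_true_eq]
  constructor
  · rintro ⟨n', A', B', h, h'⟩
    have hn : n = n' := by
      have := congrArg List.length h
      simp only [List.length_append, patBits_length] at this
      exact Nat.mul_self_inj.1 (by omega)
    subst hn
    obtain ⟨h1, h2⟩ := List.append_inj h (by rw [patBits_length, patBits_length])
    rw [patBits_inj _ _ h1, patBits_inj _ _ h2]
    exact h'
  · intro h
    exact ⟨n, A, B, rfl, h⟩

def patA (p : ℕ) (rowPat : ℕ → ℕ → Bool) (i j : ℕ) : Bool :=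
  if i < p then (if j < 3 then rowPat i j else decide (j = i + 3)) else true

def patB (p : ℕ) (colPat cons : ℕ → ℕ → Bool) (i j : ℕ) : Bool :=
  if j < p then (if i < 3 then colPat j i else !cons (i - 3) j) else true

def dot (a b : ℕ → ℝ) : ℝ := a 0 * b 0 + a 1 * b 1 + a 2 * b 2

theorem gci (p : ℕ) (rowPat colPat cons : ℕ → ℕ → Bool) :
    CI (matBits (p + 3) (patA p rowPat) ++ matBits (p + 3) (patB p colPat cons)) = true ↔
      ∃ M N : ℕ → ℕ → ℝ, (∀ i, i < p → ∀ c, c < 3 → rowPat i c = false → M i c = 0) ∧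
        (∀ j, j < p → ∀ c, c < 3 → colPat j c = false → N j c = 0) ∧
        ∀ i, i < p → ∀ j, j < p → cons i j = true →
          dot (M i) (N j) = if i = j then 1 else 0 := by
  rw [← patBits_of, ← patBits_of, CI_patBits]
  let e1 : Fin p ⊕ Fin 3 ≃ Fin (p + 3) := finSumFinEquiv
  let e2 : Fin 3 ⊕ Fin p ≃ Fin (p + 3) := finSumFinEquiv.trans (finCongr (Nat.add_comm 3 p))
  have v1 : ∀ a, (e1 (.inl a)).val = a.val := fun a => rfl
  have v2 : ∀ a, (e1 (.inr a)).val = p + a.val := fun a => rfl
  have v3 : ∀ a, (e2 (.inl a)).val = a.val := fun a => rfl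
  have v4 : ∀ a, (e2 (.inr a)).val = 3 + a.val := fun a => rfl
  constructor
  · rintro ⟨A, B, hA, hB, hAB⟩
    refine ⟨fun i c => if h : i < p ∧ c < 3 then A (e1 (.inl ⟨i, h.1⟩)) (e2 (.inl ⟨c, h.2⟩)) else 0,
      fun j c => if h : j < p ∧ c < 3 then B (e2 (.inl ⟨c, h.2⟩)) (e1 (.inl ⟨j, h.1⟩)) else 0,
      ?_, ?_, ?_⟩
    · intro i hi c hc h
      simp only [hi, hc, and_self, dif_pos]
      exact hA _ _ (by simp [v1, v3, patA, hi, hc, h])
    · intro j hj c hc h
      simp only [hj, hc, and_self, dif_pos]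
      exact hB _ _ (by simp [v1, v3, patB, hj, hc, h])
    · intro i hi j hj h
      have h1 := congrFun (congrFun hAB (e1 (.inl ⟨i, hi⟩))) (e1 (.inl ⟨j, hj⟩))
      rw [Matrix.mul_apply, ← e2.sum_comp, Fintype.sum_sum_type, Fin.sum_univ_three] at h1
      have h2 : ∑ k : Fin p, A (e1 (.inl ⟨i, hi⟩)) (e2 (.inr k)) *
          B (e2 (.inr k)) (e1 (.inl ⟨j, hj⟩)) = 0 := by
        refine Finset.sum_eq_zero (fun k _ => ?_)
        by_cases hk : k.val = i
        · rw [hB _ _ (by simp [v1, v4, patB, hj, hk, h]), mul_zero]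
        · rw [hA _ _ (by simp [v1, v4, patA, hi]; omega), zero_mul]
      rw [h2, add_zero, Matrix.one_apply] at h1
      simp only [dot, hi, hj, true_and, show (0 : ℕ) < 3 by omega, show (1 : ℕ) < 3 by omega,
        show (2 : ℕ) < 3 by omega, dif_pos]
      refine h1.trans ?_
      simp
  · rintro ⟨M, N, hM, hN, h⟩
    let M0 : Matrix (Fin p) (Fin 3) ℝ := Matrix.of (fun i c => M i.val c.val)
    let N0 : Matrix (Fin 3) (Fin p) ℝ := Matrix.of (fun c j => N j.val c.val)
    let A0 : Matrix (Fin p ⊕ Fin 3) (Fin 3 ⊕ Fin p) ℝ :=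
      Matrix.fromBlocks M0 1 (1 - N0 * M0) (-N0)
    let B0 : Matrix (Fin 3 ⊕ Fin p) (Fin p ⊕ Fin 3) ℝ :=
      Matrix.fromBlocks N0 1 (1 - M0 * N0) (-M0)
    have h0 : A0 * B0 = 1 := by
      simp only [A0, B0, Matrix.fromBlocks_multiply]
      rw [← Matrix.fromBlocks_one]
      congr 1
      · simp
      · simp
      · simp [Matrix.sub_mul, Matrix.mul_sub, Matrix.mul_assoc]
      · simp
    refine ⟨A0.submatrix e1.symm e2.symm, B0.submatrix e2.symm e1.symm, ?_, ?_, ?_⟩
    · intro i j hij
      obtain ⟨i, rfl⟩ := e1.surjective i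
      obtain ⟨j, rfl⟩ := e2.surjective j
      simp only [Matrix.submatrix_apply, Equiv.symm_apply_apply]
      rcases i with i | i
      · rcases j with j | j
        · exact hM _ i.2 _ j.2 (by simpa [v1, v3, patA] using hij)
        · have : i ≠ j := by
            rintro rfl
            simp [v1, v4, patA, Nat.add_comm] at hij
          simp [A0, this]
      · simp [v2, patA] at hij
    · intro i j hij
      obtain ⟨i, rfl⟩ := e2.surjective i
      obtain ⟨j, rfl⟩ := e1.surjective j
      simp only [Matrix.submatrix_apply, Equiv.symm_apply_apply]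
      rcases j with j | j
      · rcases i with i | i
        · exact hN _ j.2 _ i.2 (by simpa [v1, v3, patB] using hij)
        · have h1 := h i.val i.2 j.val j.2 (by simpa [v1, v4, patB] using hij)
          simp only [B0, Matrix.fromBlocks_apply₂₁, Matrix.sub_apply, Matrix.one_apply,
            Matrix.mul_apply, Fin.sum_univ_three, M0, N0, Matrix.of_apply]
          rw [sub_eq_zero]
          refine Eq.trans ?_ h1.symm
          simp [Fin.ext_iff]
      · simp [v2, patB] at hij
    · rw [Matrix.submatrix_mul_equiv, h0, Matrix.submatrix_one_equiv]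

section
variable (p : ℕ) (isRow : ℕ → Bool) (pat : ℕ → ℕ → Bool) (nz : ℕ → ℕ) (L : List (ℕ × ℕ))

def gRow (i c : ℕ) : Bool := if isRow i then pat i c else decide (c = nz i)
def gCol (j c : ℕ) : Bool := if isRow j then decide (c = nz j) else pat j c
def gCons (i j : ℕ) : Bool := decide (i = j) || L.any (fun e => decide (e.1 = i) && decide (e.2 = j))

def geoBits : List Bool :=
  matBits (p + 3) (patA p (gRow isRow pat nz)) ++
    matBits (p + 3) (patB p (gCol isRow pat nz) (gCons L))

/-- A configuration of points and lines with zero patterns, a nonzero coordinate each, and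
prescribed incidences. -/
def Geo (vec : ℕ → ℕ → ℝ) : Prop :=
  (∀ o, o < p → ∀ c, c < 3 → pat o c = false → vec o c = 0) ∧ (∀ o, o < p → vec o (nz o) ≠ 0) ∧
    ∀ e ∈ L, dot (vec e.1) (vec e.2) = 0

theorem dot_single (a : ℕ → ℝ) (k : ℕ) (hk : k < 3) (b : ℕ → ℝ)
    (hb : ∀ c, c < 3 → c ≠ k → b c = 0) : dot a b = a k * b k := by
  unfold dot
  interval_cases k
  · rw [hb 1 (by omega) (by omega), hb 2 (by omega) (by omega)]; ring
  · rw [hb 0 (by omega) (by omega), hb 2 (by omega) (by omega)]; ring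
  · rw [hb 0 (by omega) (by omega), hb 1 (by omega) (by omega)]; ring

theorem dot_comm (a b : ℕ → ℝ) : dot a b = dot b a := by unfold dot; ring

theorem geo_iff (hnz : ∀ o, nz o < 3)
    (hL : ∀ e ∈ L, e.1 < p ∧ e.2 < p ∧ isRow e.1 = true ∧ isRow e.2 = false) :
    CI (geoBits p isRow pat nz L) = true ↔ ∃ vec, Geo p pat nz L vec := by
  unfold geoBits
  rw [gci]
  constructor
  · rintro ⟨M, N, hM, hN, h⟩
    refine ⟨fun o => if isRow o then M o else N o, ?_, ?_, ?_⟩
    · intro o ho c hc hp
      cases hr : isRow o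
      · simpa [hr] using hN o ho c hc (by simp [gCol, hr, hp])
      · simpa [hr] using hM o ho c hc (by simp [gRow, hr, hp])
    · intro o ho
      have h1 := h o ho o ho (by simp [gCons])
      simp only [if_true] at h1
      cases hr : isRow o
      · rw [dot_comm, dot_single _ _ (hnz o) _ (fun c hc hne =>
          hM o ho c hc (by simp [gRow, hr, hne]))] at h1
        simp only [hr, Bool.false_eq_true, if_false]
        exact left_ne_zero_of_mul_eq_one h1
      · rw [dot_single _ _ (hnz o) _ (fun c hc hne =>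
          hN o ho c hc (by simp [gCol, hr, hne]))] at h1
        simp only [hr, if_true]
        exact left_ne_zero_of_mul_eq_one h1
    · intro e he
      obtain ⟨a1, a2, a3, a4⟩ := hL e he
      have hne : e.1 ≠ e.2 := by
        intro h
        rw [h, a4] at a3
        cases a3
      have h1 := h e.1 a1 e.2 a2 (by
        simp only [gCons, Bool.or_eq_true, List.any_eq_true]
        exact Or.inr ⟨e, he, by simp⟩)
      simpa [a3, a4, hne] using h1
  · rintro ⟨vec, h1, h2, h3⟩
    refine ⟨fun o => if isRow o then vec o else fun c => if c = nz o then (vec o c)⁻¹ else 0,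
      fun o => if isRow o then (fun c => if c = nz o then (vec o c)⁻¹ else 0) else vec o,
      ?_, ?_, ?_⟩
    · intro o ho c hc hp
      cases hr : isRow o
      · have : c ≠ nz o := by simpa [gRow, hr] using hp
        simp [hr, this]
      · simpa [hr] using h1 o ho c hc (by simpa [gRow, hr] using hp)
    · intro o ho c hc hp
      cases hr : isRow o
      · simpa [hr] using h1 o ho c hc (by simpa [gCol, hr] using hp)
      · have : c ≠ nz o := by simpa [gCol, hr] using hp
        simp [hr, this]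
    · intro i hi j hj hc
      by_cases hij : i = j
      · subst hij
        simp only [if_true]
        cases hr : isRow i
        · simp only [Bool.false_eq_true, if_false]
          rw [dot_comm, dot_single _ _ (hnz i) _ (fun c _ hne => by simp [hne])]
          simp [h2 i hi]
        · simp only [if_true]
          rw [dot_single _ _ (hnz i) _ (fun c _ hne => by simp [hne])]
          simp [h2 i hi]
      · simp only [gCons, hij, decide_false, Bool.false_or, List.any_eq_true, Bool.and_eq_true,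
          decide_eq_true_eq] at hc
        obtain ⟨e, he, rfl, rfl⟩ := hc
        obtain ⟨a1, a2, a3, a4⟩ := hL e he
        simpa [a3, a4, hij] using h3 e he

end

end Pool.Agent.Work.MP_49d20d_lc
end

-- merged part: Pool.Agent.Work.MP_49d20d_lc.Ami
section
/-! Systems of equations `x + y = z`, `x * y = z` as configurations (von Staudt constructions). -/

namespace Pool.Agent.Work.MP_49d20d_lc

/-- `(true, x, y, z)` is `x * y = z`, `(false, x, y, z)` is `x + y = z`. -/
abbrev Con := Bool × ℕ × ℕ × ℕ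

def Con.Ok (val : ℕ → ℝ) (c : Con) : Prop :=
  if c.1 then val c.2.1 * val c.2.2.1 = val c.2.2.2 else val c.2.1 + val c.2.2.1 = val c.2.2.2

def kind (V o : ℕ) : ℕ := if o < 8 then o else if o < 8 + 7 * V then 8 + (o - 8) % 7 else 15

def rowT : List Bool :=
  [true, false, false, false, true, true, false, true, false, true, false, true, false, true,
    false, true]
def zeroT : List ℕ := [3, 2, 1, 0, 2, 1, 3, 0, 2, 3, 1, 3, 0, 2, 3, 3]
def nzT : List ℕ := [0, 0, 0, 1, 0, 0, 0, 1, 1, 0, 2, 0, 2, 0, 1, 0]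

def aRow (V o : ℕ) : Bool := rowT.getD (kind V o) true
def aPat (V o c : ℕ) : Bool := !decide (c = zeroT.getD (kind V o) 3)
def aNz (V o : ℕ) : ℕ := nzT.getD (kind V o) 0

def globL : List (ℕ × ℕ) :=
  [(0, 1), (0, 2), (0, 3), (0, 8), (4, 1), (5, 2), (4, 6), (5, 6), (7, 6)]

def varL (b : ℕ) : List (ℕ × ℕ) :=
  [(b + 1, b), (b + 1, 3), (b + 1, b + 2), (b + 3, 1), (b + 3, b + 2), (b + 3, b + 4), (b + 5, b),
    (b + 5, b + 6), (7, b + 6)]

def conL (r : ℕ) (c : Con) : List (ℕ × ℕ) :=
  [(r, 8 + 7 * c.2.1), (r, 8 + 7 * c.2.2.1 + (if c.1 then 4 else 2)),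
    (r, 8 + 7 * c.2.2.2 + (if c.1 then 2 else 6))]

def aL (V : ℕ) (cs : List Con) : List (ℕ × ℕ) :=
  globL ++ (List.range V).flatMap (fun v => varL (8 + 7 * v)) ++
    (List.range cs.length).flatMap (fun k => conL (8 + 7 * V + k) (cs.getD k (false, 0, 0, 0)))

def amiBits (V : ℕ) (cs : List Con) : List Bool :=
  geoBits (8 + 7 * V + cs.length) (aRow V) (aPat V) (aNz V) (aL V cs)

theorem kind_var {V v k : ℕ} (hv : v < V) (hk : k < 7) : kind V (8 + 7 * v + k) = 8 + k := by
  unfold kind
  split_ifs <;> omega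

theorem kind_var0 {V v : ℕ} (hv : v < V) : kind V (8 + 7 * v) = 8 :=
  kind_var (k := 0) hv (by omega)

theorem kind_con (V k : ℕ) : kind V (8 + 7 * V + k) = 15 := by
  unfold kind
  split_ifs <;> omega

theorem kind_glob (V : ℕ) {k : ℕ} (hk : k < 8) : kind V k = k := by
  unfold kind
  simp [hk]

theorem kind_lt (V o : ℕ) : kind V o < 16 := by
  unfold kind
  split_ifs <;> omega

theorem aNz_lt (V o : ℕ) : aNz V o < 3 := by
  have := kind_lt V o
  unfold aNz
  generalize kind V o = k at this
  interval_cases k <;> simp [nzT]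

theorem mem_aL {V : ℕ} {cs : List Con} {e : ℕ × ℕ} :
    e ∈ aL V cs ↔ e ∈ globL ∨ (∃ v, v < V ∧ e ∈ varL (8 + 7 * v)) ∨
      ∃ k, ∃ h : k < cs.length, e ∈ conL (8 + 7 * V + k) cs[k] := by
  simp only [aL, List.mem_append, List.mem_flatMap, List.mem_range, or_assoc]
  refine or_congr_right (or_congr_right ⟨?_, ?_⟩)
  · rintro ⟨k, hk, h⟩
    exact ⟨k, hk, by simpa [List.getD_eq_getElem?_getD, hk] using h⟩
  · rintro ⟨k, hk, h⟩
    exact ⟨k, hk, by simpa [List.getD_eq_getElem?_getD, hk] using h⟩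

theorem aL_ok {V : ℕ} (hV : 0 < V) {cs : List Con}
    (hcs : ∀ c ∈ cs, c.2.1 < V ∧ c.2.2.1 < V ∧ c.2.2.2 < V) :
    ∀ e ∈ aL V cs, e.1 < 8 + 7 * V + cs.length ∧ e.2 < 8 + 7 * V + cs.length ∧
      aRow V e.1 = true ∧ aRow V e.2 = false := by
  intro e he
  rcases mem_aL.1 he with h | ⟨v, hv, h⟩ | ⟨k, hk, h⟩
  · have h8 : kind V 8 = 8 := kind_var0 (v := 0) hV
    simp only [globL, List.mem_cons, List.not_mem_nil, or_false] at h
    rcases h with rfl | rfl | rfl | rfl | rfl | rfl | rfl | rfl | rfl <;>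
      refine ⟨by simp only; omega, by simp only; omega, ?_, ?_⟩ <;>
      simp [aRow, h8, kind_glob, rowT]
  · simp only [varL, List.mem_cons, List.not_mem_nil, or_false] at h
    rcases h with rfl | rfl | rfl | rfl | rfl | rfl | rfl | rfl | rfl <;>
      refine ⟨by simp only; omega, by simp only; omega, ?_, ?_⟩ <;>
      simp [aRow, kind_var hv, kind_var0 hv, kind_glob, rowT]
  · obtain ⟨a, b, c⟩ := hcs _ (List.getElem_mem hk)
    simp only [conL, List.mem_cons, List.not_mem_nil, or_false] at h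
    rcases h with rfl | rfl | rfl <;> cases cs[k].1 <;>
      refine ⟨by simp only; omega, by simp; omega, ?_, ?_⟩ <;>
      simp [aRow, kind_con, kind_var a, kind_var0 a, kind_var b, kind_var c, rowT]

theorem geo_normalise {p : ℕ} {isRow : ℕ → Bool} {pat : ℕ → ℕ → Bool} {nz : ℕ → ℕ}
    {L : List (ℕ × ℕ)} (hL : ∀ e ∈ L, isRow e.1 = true ∧ isRow e.2 = false)
    (hnz : ∀ o, nz o < 3)
    {vec : ℕ → ℕ → ℝ} (h : Geo p pat nz L vec) (h0 : isRow 0 = true) (hp : 0 < p)
    (hu : ∀ c, c < 3 → vec 0 c ≠ 0) :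
    ∃ r : ℕ → ℕ → ℝ, Geo p pat nz L r ∧ (∀ o, o < p → r o (nz o) = 1) ∧ ∀ c, c < 3 → r 0 c = 1 := by
  obtain ⟨h1, h2, h3⟩ := h
  let w : ℕ → ℕ → ℝ := fun o c => if isRow o then vec o c / vec 0 c else vec o c * vec 0 c
  have hw : ∀ o, o < p → w o (nz o) ≠ 0 := by
    intro o ho
    have a := h2 o ho
    have b := hu _ (hnz o)
    simp only [w]
    split_ifs
    · exact div_ne_zero a b
    · exact mul_ne_zero a b
  refine ⟨fun o c => w o c / w o (nz o), ⟨?_, ?_, ?_⟩, ?_, ?_⟩
  · intro o ho c hc hp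
    simp [w, h1 o ho c hc hp]
  · intro o ho
    simp [hw o ho]
  · intro e he
    obtain ⟨a, b⟩ := hL e he
    have := h3 e he
    have u0 := hu 0 (by omega)
    have u1 := hu 1 (by omega)
    have u2 := hu 2 (by omega)
    have key : dot (w e.1) (w e.2) = 0 := by
      simp only [dot, w, a, b, if_true, Bool.false_eq_true, if_false] at this ⊢
      rw [← this]
      field_simp
    have : dot (fun c => w e.1 c / w e.1 (nz e.1)) (fun c => w e.2 c / w e.2 (nz e.2))
        = dot (w e.1) (w e.2) / (w e.1 (nz e.1) * w e.2 (nz e.2)) := by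
      simp only [dot, div_mul_div_comm, add_div]
    rw [this, key, zero_div]
  · intro o ho
    simp [hw o ho]
  · intro c hc
    simp [w, h0, hu c hc, hu _ (hnz 0)]

theorem ami_iff {V : ℕ} (hV : 0 < V) {cs : List Con}
    (hcs : ∀ c ∈ cs, c.2.1 < V ∧ c.2.2.1 < V ∧ c.2.2.2 < V) :
    CI (amiBits V cs) = true ↔ ∃ val : ℕ → ℝ, val 0 = 1 ∧ ∀ c ∈ cs, c.Ok val := by
  have hL := aL_ok hV hcs
  unfold amiBits
  rw [geo_iff _ _ _ _ _ (aNz_lt V) hL]
  constructor
  · rintro ⟨vec, h⟩
    have hg : ∀ e ∈ globL, e ∈ aL V cs := fun e he => mem_aL.2 (Or.inl he)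
    have hu : ∀ c, c < 3 → vec 0 c ≠ 0 := by
      obtain ⟨h1, h2, h3⟩ := h
      have u0 : vec 0 0 ≠ 0 := by simpa [aNz, kind_glob, nzT] using h2 0 (by omega)
      have a0 : vec 1 0 ≠ 0 := by simpa [aNz, kind_glob, nzT] using h2 1 (by omega)
      have b0 : vec 2 0 ≠ 0 := by simpa [aNz, kind_glob, nzT] using h2 2 (by omega)
      have a2 : vec 1 2 = 0 := h1 1 (by omega) 2 (by omega) (by simp [aPat, kind_glob, zeroT])
      have b1 : vec 2 1 = 0 := h1 2 (by omega) 1 (by omega) (by simp [aPat, kind_glob, zeroT])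
      have e1 := h3 (0, 1) (hg _ (by simp [globL]))
      have e2 := h3 (0, 2) (hg _ (by simp [globL]))
      simp only [dot, a2, b1] at e1 e2
      intro c hc
      interval_cases c
      · exact u0
      · intro h
        rw [h] at e1
        exact mul_ne_zero u0 a0 (by linarith)
      · intro h
        rw [h] at e2
        exact mul_ne_zero u0 b0 (by linarith)
    obtain ⟨r, ⟨h1, -, h3⟩, h2, hu⟩ := geo_normalise (fun e he => (hL e he).2.2) (aNz_lt V) h
      (by simp [aRow, kind_glob, rowT]) (by omega) hu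
    have u0 := hu 0 (by omega)
    have u1 := hu 1 (by omega)
    have u2 := hu 2 (by omega)
    have n1 : r 1 0 = 1 := by simpa [aNz, kind_glob, nzT] using h2 1 (by omega)
    have n2 : r 2 0 = 1 := by simpa [aNz, kind_glob, nzT] using h2 2 (by omega)
    have n3 : r 3 1 = 1 := by simpa [aNz, kind_glob, nzT] using h2 3 (by omega)
    have n4 : r 4 0 = 1 := by simpa [aNz, kind_glob, nzT] using h2 4 (by omega)
    have n5 : r 5 0 = 1 := by simpa [aNz, kind_glob, nzT] using h2 5 (by omega)
    have n6 : r 6 0 = 1 := by simpa [aNz, kind_glob, nzT] using h2 6 (by omega)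
    have n7 : r 7 1 = 1 := by simpa [aNz, kind_glob, nzT] using h2 7 (by omega)
    have z1 : r 1 2 = 0 := h1 1 (by omega) 2 (by omega) (by simp [aPat, kind_glob, zeroT])
    have z2 : r 2 1 = 0 := h1 2 (by omega) 1 (by omega) (by simp [aPat, kind_glob, zeroT])
    have z3 : r 3 0 = 0 := h1 3 (by omega) 0 (by omega) (by simp [aPat, kind_glob, zeroT])
    have z4 : r 4 2 = 0 := h1 4 (by omega) 2 (by omega) (by simp [aPat, kind_glob, zeroT])
    have z5 : r 5 1 = 0 := h1 5 (by omega) 1 (by omega) (by simp [aPat, kind_glob, zeroT])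
    have z7 : r 7 0 = 0 := h1 7 (by omega) 0 (by omega) (by simp [aPat, kind_glob, zeroT])
    have g1 := h3 (0, 1) (hg _ (by simp [globL]))
    have g2 := h3 (0, 2) (hg _ (by simp [globL]))
    have g3 := h3 (0, 3) (hg _ (by simp [globL]))
    have g4 := h3 (0, 8) (hg _ (by simp [globL]))
    have g5 := h3 (4, 1) (hg _ (by simp [globL]))
    have g6 := h3 (5, 2) (hg _ (by simp [globL]))
    have g7 := h3 (4, 6) (hg _ (by simp [globL]))
    have g8 := h3 (5, 6) (hg _ (by simp [globL]))
    have g9 := h3 (7, 6) (hg _ (by simp [globL]))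
    simp only [dot, u0, u1, u2, n1, n2, n3, n4, n5, n6, n7, z1, z2, z3, z4, z5, z7] at g1 g2 g3 g4 g5 g6 g7 g8 g9
    have c11 : r 1 1 = -1 := by linarith
    have c22 : r 2 2 = -1 := by linarith
    have c32 : r 3 2 = -1 := by linarith
    have c41 : r 4 1 = 1 := by rw [c11] at g5; linarith
    have c52 : r 5 2 = 1 := by rw [c22] at g6; linarith
    have c61 : r 6 1 = -1 := by rw [c41] at g7; linarith
    have c62 : r 6 2 = -1 := by rw [c52] at g8; linarith
    have c72 : r 7 2 = -1 := by rw [c61, c62] at g9; linarith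
    have hvar : ∀ v, v < V →
        (r (8 + 7 * v) 1 = 1 ∧ r (8 + 7 * v) 2 = 0) ∧
        (r (8 + 7 * v + 2) 0 = r (8 + 7 * v) 0 ∧ r (8 + 7 * v + 2) 1 = 0 ∧ r (8 + 7 * v + 2) 2 = 1) ∧
        (r (8 + 7 * v + 4) 0 = 0 ∧ r (8 + 7 * v + 4) 1 = r (8 + 7 * v) 0 ∧ r (8 + 7 * v + 4) 2 = 1) ∧
        (r (8 + 7 * v + 6) 0 = r (8 + 7 * v) 0 ∧ r (8 + 7 * v + 6) 1 = 1 ∧ r (8 + 7 * v + 6) 2 = 1) := by
      intro v hv
      have hvl : ∀ e ∈ varL (8 + 7 * v), e ∈ aL V cs :=
        fun e he => mem_aL.2 (Or.inr (Or.inl ⟨v, hv, he⟩))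
      have m0 : r (8 + 7 * v) 1 = 1 := by
        simpa [aNz, kind_var0 hv, nzT] using h2 (8 + 7 * v) (by omega)
      have m1 : r (8 + 7 * v + 1) 0 = 1 := by
        simpa [aNz, kind_var hv, nzT] using h2 (8 + 7 * v + 1) (by omega)
      have m2 : r (8 + 7 * v + 2) 2 = 1 := by
        simpa [aNz, kind_var hv, nzT] using h2 (8 + 7 * v + 2) (by omega)
      have m3 : r (8 + 7 * v + 3) 0 = 1 := by
        simpa [aNz, kind_var hv, nzT] using h2 (8 + 7 * v + 3) (by omega)
      have m4 : r (8 + 7 * v + 4) 2 = 1 := by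
        simpa [aNz, kind_var hv, nzT] using h2 (8 + 7 * v + 4) (by omega)
      have m5 : r (8 + 7 * v + 5) 0 = 1 := by
        simpa [aNz, kind_var hv, nzT] using h2 (8 + 7 * v + 5) (by omega)
      have m6 : r (8 + 7 * v + 6) 1 = 1 := by
        simpa [aNz, kind_var hv, nzT] using h2 (8 + 7 * v + 6) (by omega)
      have y0 : r (8 + 7 * v) 2 = 0 :=
        h1 _ (by omega) 2 (by omega) (by simp [aPat, kind_var0 hv, zeroT])
      have y2 : r (8 + 7 * v + 2) 1 = 0 :=
        h1 _ (by omega) 1 (by omega) (by simp [aPat, kind_var hv, zeroT])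
      have y4 : r (8 + 7 * v + 4) 0 = 0 :=
        h1 _ (by omega) 0 (by omega) (by simp [aPat, kind_var hv, zeroT])
      have y5 : r (8 + 7 * v + 5) 2 = 0 :=
        h1 _ (by omega) 2 (by omega) (by simp [aPat, kind_var hv, zeroT])
      have f1 := h3 (8 + 7 * v + 1, 8 + 7 * v) (hvl _ (by simp [varL]))
      have f2 := h3 (8 + 7 * v + 1, 3) (hvl _ (by simp [varL]))
      have f3 := h3 (8 + 7 * v + 1, 8 + 7 * v + 2) (hvl _ (by simp [varL]))
      have f4 := h3 (8 + 7 * v + 3, 1) (hvl _ (by simp [varL]))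
      have f5 := h3 (8 + 7 * v + 3, 8 + 7 * v + 2) (hvl _ (by simp [varL]))
      have f6 := h3 (8 + 7 * v + 3, 8 + 7 * v + 4) (hvl _ (by simp [varL]))
      have f7 := h3 (8 + 7 * v + 5, 8 + 7 * v) (hvl _ (by simp [varL]))
      have f8 := h3 (8 + 7 * v + 5, 8 + 7 * v + 6) (hvl _ (by simp [varL]))
      have f9 := h3 (7, 8 + 7 * v + 6) (hvl _ (by simp [varL]))
      simp only [dot, m0, m1, m2, m3, m4, m5, m6, y0, y2, y4, y5, n1, n3, n7, z1, z3, z7, c11, c32,
        c72] at f1 f2 f3 f4 f5 f6 f7 f8 f9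
      have t31 : r (8 + 7 * v + 3) 1 = 1 := by linarith
      rw [t31] at f6
      refine ⟨⟨m0, y0⟩, ⟨by linarith, y2, m2⟩, ⟨y4, by linarith, m4⟩, by linarith, m6, by linarith⟩
    refine ⟨fun v => - r (8 + 7 * v) 0, ?_, ?_⟩
    · have := (hvar 0 hV).1
      simp only [mul_zero, add_zero] at this ⊢
      rw [this.1, this.2] at g4
      linarith
    · intro c hc
      obtain ⟨k, hk, rfl⟩ := List.getElem_of_mem hc
      obtain ⟨a, b, d⟩ := hcs _ hc
      have hcl : ∀ e ∈ conL (8 + 7 * V + k) cs[k], e ∈ aL V cs :=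
        fun e he => mem_aL.2 (Or.inr (Or.inr ⟨k, hk, he⟩))
      have m0 : r (8 + 7 * V + k) 0 = 1 := by
        simpa [aNz, kind_con, nzT] using h2 (8 + 7 * V + k) (by omega)
      have f1 := h3 _ (hcl _ (List.mem_cons_self))
      have f2 := h3 _ (hcl _ (List.mem_cons_of_mem _ List.mem_cons_self))
      have f3 := h3 _ (hcl _ (List.mem_cons_of_mem _ (List.mem_cons_of_mem _ List.mem_cons_self)))
      obtain ⟨⟨x1, x2⟩, -, -, -⟩ := hvar _ a
      obtain ⟨-, ⟨y1, y2, y3⟩, ⟨y4, y5, y6⟩, -⟩ := hvar _ b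
      obtain ⟨-, ⟨w1, w2, w3⟩, -, ⟨w4, w5, w6⟩⟩ := hvar _ d
      unfold Con.Ok
      cases hm : cs[k].1
      · simp only [hm, Bool.false_eq_true, if_false, dot, m0, x1, x2, y1, y2, y3, w4, w5, w6] at f1 f2 f3 ⊢
        linarith
      · simp only [hm, if_true, dot, m0, x1, x2, y4, y5, y6, w1, w2, w3] at f1 f2 f3 ⊢
        have e1 : r (8 + 7 * V + k) 1 = - r (8 + 7 * cs[k].2.1) 0 := by linarith
        rw [e1] at f2
        linarith
  · rintro ⟨val, h0, h⟩
    let v3 : ℝ → ℝ → ℝ → ℕ → ℝ := fun a b c i => if i = 0 then a else if i = 1 then b else c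
    let tab : ℕ → ℝ → ℝ → ℕ → ℝ := fun k x y =>
      match k with
      | 0 => v3 1 1 1
      | 1 => v3 1 (-1) 0
      | 2 => v3 1 0 (-1)
      | 3 => v3 0 1 (-1)
      | 4 => v3 1 1 0
      | 5 => v3 1 0 1
      | 6 => v3 1 (-1) (-1)
      | 7 => v3 0 1 (-1)
      | 8 => v3 x (-1) 0
      | 9 => v3 1 x x
      | 10 => v3 x 0 (-1)
      | 11 => v3 1 1 x
      | 12 => v3 0 x (-1)
      | 13 => v3 1 x 0
      | 14 => v3 x (-1) (-1)
      | _ => v3 1 x y
    let cx : Con → ℝ := fun c => val c.2.1
    let cy : Con → ℝ := fun c => if c.1 then val c.2.2.2 else val c.2.2.1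
    let vec : ℕ → ℕ → ℝ := fun o => tab (kind V o)
      (if o < 8 + 7 * V then val ((o - 8) / 7) else cx (cs.getD (o - (8 + 7 * V)) (false, 0, 0, 0)))
      (cy (cs.getD (o - (8 + 7 * V)) (false, 0, 0, 0)))
    have vg : ∀ k, k < 8 → vec k = tab k 0 0 := by
      intro k hk
      simp only [vec, kind_glob V hk]
      interval_cases k <;> rfl
    have vv : ∀ v k, v < V → k < 7 → vec (8 + 7 * v + k) = tab (8 + k) (val v) 0 := by
      intro v k hv hk
      have e1 : 8 + 7 * v + k < 8 + 7 * V := by omega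
      have e2 : (8 + 7 * v + k - 8) / 7 = v := by omega
      simp only [vec, kind_var hv hk, e1, e2, if_true]
      interval_cases k <;> rfl
    have vv0 : ∀ v, v < V → vec (8 + 7 * v) = tab 8 (val v) 0 := fun v hv => vv v 0 hv (by omega)
    have vc : ∀ k (hk : k < cs.length), vec (8 + 7 * V + k) = v3 1 (cx cs[k]) (cy cs[k]) := by
      intro k hk
      have e1 : ¬ (8 + 7 * V + k < 8 + 7 * V) := by omega
      simp [vec, kind_con, e1, tab, List.getD_eq_getElem?_getD, hk]
    refine ⟨vec, ?_, ?_, ?_⟩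
    · intro o _ c hc hp
      have := kind_lt V o
      simp only [aPat, Bool.not_eq_eq_eq_not, Bool.not_false, decide_eq_true_eq] at hp
      simp only [vec]
      generalize kind V o = k at this hp
      subst hp
      interval_cases k <;> simp [zeroT, tab, v3] at hc ⊢
    · intro o _
      have := kind_lt V o
      simp only [vec, aNz]
      generalize kind V o = k at this
      interval_cases k <;> simp [nzT, tab, v3]
    · intro e he
      rcases mem_aL.1 he with h' | ⟨v, hv, h'⟩ | ⟨k, hk, h'⟩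
      · have h8 : vec 8 = tab 8 (val 0) 0 := vv0 0 hV
        simp only [globL, List.mem_cons, List.not_mem_nil, or_false] at h'
        rcases h' with rfl | rfl | rfl | rfl | rfl | rfl | rfl | rfl | rfl <;>
          simp [h8, vg, dot, tab, v3, h0]
      · simp only [varL, List.mem_cons, List.not_mem_nil, or_false] at h'
        rcases h' with rfl | rfl | rfl | rfl | rfl | rfl | rfl | rfl | rfl <;>
          simp [vv _ _ hv, vv0 _ hv, vg, dot, tab, v3]
      · obtain ⟨a, b, d⟩ := hcs _ (List.getElem_mem hk)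
        have hok := h _ (List.getElem_mem hk)
        unfold Con.Ok at hok
        simp only [conL, List.mem_cons, List.not_mem_nil, or_false] at h'
        rcases h' with rfl | rfl | rfl <;> cases hm : cs[k].1 <;>
          simp [vc k hk, vv _ _ b, vv _ _ d, vv0 _ a, dot, tab, v3, cx, cy, hm] at hok ⊢ <;>
          linarith

end Pool.Agent.Work.MP_49d20d_lc
end

-- merged part: Pool.Agent.Work.MP_49d20d_lc.Reduce
section
/-! The reduction from the existential theory of the reals to constrained invertibility. -/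

namespace Pool.Agent.Work.MP_49d20d_lc

open Pool.Agent.Lib.Cx

/-- Equations saying that `t` is the truth value of `a < c`; auxiliary variables `b+1..b+7`. -/
def ltCons (a c t b : ℕ) : List Con :=
  [(false, a, b + 1, c), (true, b + 2, b + 2, b + 3), (true, b + 1, b + 3, t),
    (true, b + 4, b + 4, b + 5), (false, b + 1, b + 5, b + 6), (true, t, b + 7, b + 6),
    (true, t, t, t)]

def nodeCons (k a c b : ℕ) : List Con :=
  if k = 0 then [(false, b, b, b)]
  else if k = 1 then [(false, a, a, b)]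
  else if k = 2 then [(false, a, a, b + 1), (false, b + 1, 0, b)]
  else if k = 4 then [(true, 0, a, b)]
  else if k = 5 then [(false, a, b, 1)]
  else if k = 6 then [(false, a, c, b)]
  else if k = 7 then [(true, a, c, b)]
  else if k = 8 then [(false, c, b + 1, a), (true, b, b + 1, 1), (true, b + 1, b + 2, b + 3),
    (false, b, b + 3, 0)]
  else if k = 9 then ltCons a c b b
  else if k = 10 then (false, b, b + 8, 0) :: ltCons c a (b + 8) b
  else if k = 11 then [(false, a, b, 0)]
  else if k = 12 then [(true, a, c, b)]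
  else [(true, a, c, b + 1), (false, b, b + 1, b + 2), (false, a, c, b + 2)]

noncomputable def nodeVal (k : ℕ) (x y : ℝ) : ℝ :=
  if arity k = 0 then 0 else if arity k = 1 then op1 k x else op2 k x y

open Classical in
theorem lt_sound {x y t d u p v q r e : ℝ} (h1 : x + d = y) (h2 : u * u = p) (h3 : d * p = t)
    (h4 : v * v = q) (h5 : d + q = r) (h6 : t * e = r) (h7 : t * t = t) :
    t = if x < y then 1 else 0 := by
  have : t = 0 ∨ t = 1 := by
    have : t * (t - 1) = 0 := by linarith
    rcases mul_eq_zero.1 this with h | h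
    · exact Or.inl h
    · exact Or.inr (by linarith)
  rcases this with rfl | rfl
  · rw [if_neg]
    nlinarith [mul_self_nonneg v]
  · rw [if_pos]
    by_contra hc
    have : d ≤ 0 := by linarith
    nlinarith [mul_self_nonneg u]

open Classical in
theorem lt_complete (x y : ℝ) : ∃ d u p v q r e : ℝ, x + d = y ∧ u * u = p ∧
    d * p = (if x < y then 1 else 0) ∧ v * v = q ∧ d + q = r ∧ (if x < y then 1 else 0) * e = r := by
  by_cases h : x < y
  · have h0 : 0 < y - x := by linarith
    refine ⟨y - x, Real.sqrt (y - x)⁻¹, (y - x)⁻¹, 0, 0, y - x, y - x, by ring,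
      Real.mul_self_sqrt (by positivity), ?_, by ring, by ring, by simp [h]⟩
    simp [h, h0.ne']
  · refine ⟨y - x, 0, 0, Real.sqrt (x - y), x - y, 0, 0, by ring, by ring, by simp [h],
      Real.mul_self_sqrt (by linarith), by ring, by simp⟩

theorem node_sound (val : ℕ → ℝ) (h0 : val 0 = 1) (h1 : val 1 = 0) (k a c b : ℕ) (hk : k ≤ 13)
    (h3 : k ≠ 3) (h : ∀ con ∈ nodeCons k a c b, Con.Ok val con) :
    val b = nodeVal k (val a) (val c) := by
  classical
  interval_cases k <;>
    simp [nodeCons, ltCons, Con.Ok, nodeVal, arity, op1, op2, h0, h1] at h h3 ⊢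
  · linarith
  · linarith
  · linarith
  · linarith
  · linarith
  · linarith
  · linarith
  · obtain ⟨e1, e2, e3, e4⟩ := h
    split_ifs with e
    · have : val (b + 1) = 0 := by linarith
      rw [this] at e3
      linarith
    · rcases e2 with e2 | e2
      · exact e2
      · exact absurd (by linarith) e
  · obtain ⟨e1, e2, e3, e4, e5, e6, e7⟩ := h
    exact lt_sound e1 e2 e3 e4 e5 e6 e7
  · obtain ⟨e0, e1, e2, e3, e4, e5, e6, e7⟩ := h
    have := lt_sound e1 e2 e3 e4 e5 e6 e7
    by_cases e : val a ≤ val c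
    · rw [if_neg (by linarith)] at this
      rw [if_pos e]
      linarith
    · rw [if_pos (by linarith)] at this
      rw [if_neg e]
      linarith
  · linarith
  · linarith
  · linarith

theorem node_complete (k : ℕ) (hk : k ≤ 13) (h3 : k ≠ 3) (x y : ℝ) :
    ∃ w : ℕ → ℝ, w 0 = nodeVal k x y ∧ ∀ (val : ℕ → ℝ) (a c b : ℕ), val 0 = 1 → val 1 = 0 →
      val a = x → val c = y → (∀ r, r < 9 → val (b + r) = w r) →
      ∀ con ∈ nodeCons k a c b, Con.Ok val con := by
  classical
  have key : ∀ w0 w1 w2 w3 w4 w5 w6 w7 w8 : ℝ, w0 = nodeVal k x y →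
      (∀ (val : ℕ → ℝ) (a c b : ℕ), val 0 = 1 → val 1 = 0 →
      val a = x → val c = y → val b = w0 → val (b + 1) = w1 → val (b + 2) = w2 → val (b + 3) = w3 →
      val (b + 4) = w4 → val (b + 5) = w5 → val (b + 6) = w6 → val (b + 7) = w7 → val (b + 8) = w8 →
      ∀ con ∈ nodeCons k a c b, Con.Ok val con) →
      ∃ w : ℕ → ℝ, w 0 = nodeVal k x y ∧ ∀ (val : ℕ → ℝ) (a c b : ℕ), val 0 = 1 → val 1 = 0 →
      val a = x → val c = y → (∀ r, r < 9 → val (b + r) = w r) →
      ∀ con ∈ nodeCons k a c b, Con.Ok val con := by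
    intro w0 w1 w2 w3 w4 w5 w6 w7 w8 e h
    refine ⟨fun r => [w0, w1, w2, w3, w4, w5, w6, w7, w8].getD r 0, e, ?_⟩
    intro val a c b h0 h1 ha hc hr
    exact h val a c b h0 h1 ha hc (hr 0 (by omega)) (hr 1 (by omega)) (hr 2 (by omega))
      (hr 3 (by omega)) (hr 4 (by omega)) (hr 5 (by omega)) (hr 6 (by omega)) (hr 7 (by omega))
      (hr 8 (by omega))
  by_cases k8 : k = 8
  · subst k8
    refine key _ (x - y) (x - y)⁻¹ ((x - y) * (x - y)⁻¹) 0 0 0 0 0 rfl ?_
    intro val a c b h0 h1 ha hc e0 e1 e2 e3 _ _ _ _ _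
    by_cases e : x = y
    · simp [nodeCons, Con.Ok, nodeVal, arity, op2, h0, h1, ha, hc, e0, e1, e2, e3, e]
    · have : x - y ≠ 0 := sub_ne_zero.2 e
      simp [nodeCons, Con.Ok, nodeVal, arity, op2, h0, h1, ha, hc, e0, e1, e2, e3, e, this]
  by_cases k9 : k = 9
  · subst k9
    obtain ⟨d, u, p, v, q, r, e, a1, a2, a3, a4, a5, a6⟩ := lt_complete x y
    refine key _ d u p v q r e 0 rfl ?_
    intro val a c b h0 h1 ha hc e0 e1 e2 e3 e4 e5 e6 e7 _
    have : nodeVal 9 x y = if x < y then 1 else 0 := by simp [nodeVal, arity, op2]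
    rw [this] at e0
    simp only [nodeCons, ltCons, Con.Ok]
    simp only [List.mem_cons, List.not_mem_nil, or_false, forall_eq_or_imp, forall_eq,
      show ¬ (9 = 0) by omega, show ¬ (9 = 1) by omega, show ¬ (9 = 2) by omega,
      show ¬ (9 = 4) by omega, show ¬ (9 = 5) by omega, show ¬ (9 = 6) by omega,
      show ¬ (9 = 7) by omega, show ¬ (9 = 8) by omega, if_false, if_true, Bool.false_eq_true,
      ha, hc, e0, e1, e2, e3, e4, e5, e6, e7, a1, a2, a3, a4, a5, a6, true_and]
    split_ifs <;> simp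
  by_cases k10 : k = 10
  · subst k10
    obtain ⟨d, u, p, v, q, r, e, a1, a2, a3, a4, a5, a6⟩ := lt_complete y x
    refine key _ d u p v q r e (if y < x then 1 else 0) rfl ?_
    intro val a c b h0 h1 ha hc e0 e1 e2 e3 e4 e5 e6 e7 e8
    have : nodeVal 10 x y = if x ≤ y then 1 else 0 := by simp [nodeVal, arity, op2]
    rw [this] at e0
    simp only [nodeCons, ltCons, Con.Ok]
    simp only [List.mem_cons, List.not_mem_nil, or_false, forall_eq_or_imp, forall_eq,
      show ¬ (10 = 0) by omega, show ¬ (10 = 1) by omega, show ¬ (10 = 2) by omega,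
      show ¬ (10 = 4) by omega, show ¬ (10 = 5) by omega, show ¬ (10 = 6) by omega,
      show ¬ (10 = 7) by omega, show ¬ (10 = 8) by omega, show ¬ (10 = 9) by omega, if_false,
      if_true, Bool.false_eq_true,
      ha, hc, e0, e1, e2, e3, e4, e5, e6, e7, e8, a1, a2, a3, a4, a5, a6, true_and, h0]
    by_cases h : x ≤ y
    · simp [h, not_lt.2 h]
    · simp [h, not_le.1 h]
  refine key _ (if k = 2 then x + x else x * y) (x + y) 0 0 0 0 0 0 rfl ?_
  intro val a c b h0 h1 ha hc e0 e1 e2 _ _ _ _ _ _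
  interval_cases k <;>
    simp [nodeCons, Con.Ok, nodeVal, arity, op1, op2, h0, h1, ha, hc, e0, e1, e2] at h3 k8 k9 k10 ⊢ <;>
    ring

def vx (i : ℕ) : ℕ := 2 + 9 * i

def posCons (ts : List ℕ) (i : ℕ) : List Con :=
  if tk ts i = 3 then
    ((List.range ts.length).filter (fun j => decide (tk ts j = 3) &&
      decide (subAt ts (i + 1) = subAt ts (j + 1)))).map (fun j => (true, 0, vx i, vx j))
  else nodeCons (tk ts i) (vx (i + 1)) (vx (c2 ts i)) (vx i)

def allCons (ts : List ℕ) : List Con :=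
  (false, 1, 1, 1) :: (true, 0, 0, vx 0) :: (List.range ts.length).flatMap (fun i => posCons ts i)

def nVars (ts : List ℕ) : ℕ := vx (2 * ts.length + 2)

theorem nodeCons_lt (k a c b V : ℕ) (ha : a < V) (hc : c < V) (hb : b + 8 < V) :
    ∀ con ∈ nodeCons k a c b, con.2.1 < V ∧ con.2.2.1 < V ∧ con.2.2.2 < V := by
  by_cases hk : k ≤ 12
  · interval_cases k <;> simp [nodeCons, ltCons] <;> omega
  · have e : ∀ j, j ≤ 12 → ¬ k = j := fun j hj => by omega
    simp [nodeCons, e]
    omega

theorem allCons_lt (ts : List ℕ) :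
    ∀ con ∈ allCons ts, con.2.1 < nVars ts ∧ con.2.2.1 < nVars ts ∧ con.2.2.2 < nVars ts := by
  intro con h
  simp only [allCons, List.mem_cons, List.mem_flatMap, List.mem_range] at h
  rcases h with rfl | rfl | ⟨i, hi, h⟩
  · simp [nVars, vx]; omega
  · simp [nVars, vx]
  · unfold posCons at h
    split_ifs at h
    · simp only [List.mem_map, List.mem_filter, List.mem_range] at h
      obtain ⟨j, ⟨hj, -⟩, rfl⟩ := h
      simp only [nVars, vx]
      omega
    · have : subSz ts (i + 1) ≤ ts.length + 1 := findLt_le _ _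
      exact nodeCons_lt _ _ _ _ _ (by simp only [nVars, vx]; omega)
        (by simp only [nVars, vx, c2]; omega) (by simp only [nVars, vx]; omega) con h

theorem local_iff_cons (ts : List ℕ) (hwf : wf ts = true) :
    (∃ v : ℕ → ℝ, v 0 = 1 ∧ ∀ i, i < ts.length → Local ts v i) ↔
      ∃ val : ℕ → ℝ, val 0 = 1 ∧ ∀ c ∈ allCons ts, c.Ok val := by
  have hk : ∀ i, i < ts.length → tk ts i ≤ 13 := by
    intro i hi
    simp only [wf, Bool.and_eq_true, decide_eq_true_eq, List.all_eq_true, List.mem_range,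
      locOk] at hwf
    exact (hwf.2 i hi).1.1
  constructor
  · rintro ⟨v, h0, h⟩
    have : ∀ i, ∃ w : ℕ → ℝ, w 0 = v i ∧ (i < ts.length → tk ts i ≠ 3 →
        ∀ (val : ℕ → ℝ) (a c b : ℕ), val 0 = 1 → val 1 = 0 →
        val a = v (i + 1) → val c = v (c2 ts i) → (∀ r, r < 9 → val (b + r) = w r) →
        ∀ con ∈ nodeCons (tk ts i) a c b, Con.Ok val con) := by
      intro i
      by_cases hi : i < ts.length ∧ tk ts i ≠ 3
      · obtain ⟨w, h1, h2⟩ := node_complete _ (hk i hi.1) hi.2 (v (i + 1)) (v (c2 ts i))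
        refine ⟨w, ?_, fun _ _ => h2⟩
        have := h i hi.1
        unfold Local at this
        rw [if_neg hi.2] at this
        rw [h1, this]
        rfl
      · exact ⟨fun _ => v i, rfl, fun a b => absurd ⟨a, b⟩ hi⟩
    choose W hW0 hW using this
    let val : ℕ → ℝ := fun n => if n = 0 then 1 else if n = 1 then 0 else W ((n - 2) / 9) ((n - 2) % 9)
    have hv : ∀ i r, r < 9 → val (vx i + r) = W i r := by
      intro i r hr
      have a : ¬ (vx i + r = 0) := by unfold vx; omega
      have b : ¬ (vx i + r = 1) := by unfold vx; omega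
      have c : (vx i + r - 2) / 9 = i := by unfold vx; omega
      have d : (vx i + r - 2) % 9 = r := by unfold vx; omega
      simp only [val, a, b, c, d, if_false]
    have hv0 : ∀ i, val (vx i) = v i := fun i => (hv i 0 (by omega)).trans (hW0 i)
    have v0 : val 0 = 1 := rfl
    have v1 : val 1 = 0 := rfl
    refine ⟨val, rfl, fun con hc => ?_⟩
    simp only [allCons, List.mem_cons, List.mem_flatMap, List.mem_range] at hc
    rcases hc with rfl | rfl | ⟨i, hi, hc⟩
    · simp [Con.Ok, v1]
    · simp [Con.Ok, v0, hv0, h0]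
    · unfold posCons at hc
      split_ifs at hc with e
      · simp only [List.mem_map, List.mem_filter, List.mem_range, Bool.and_eq_true,
          decide_eq_true_eq] at hc
        obtain ⟨j, ⟨hj, a, b⟩, rfl⟩ := hc
        have := h i hi
        unfold Local at this
        rw [if_pos e] at this
        simp [Con.Ok, v0, hv0, this j hj a b]
      · exact hW i hi e val _ _ _ v0 v1 (hv0 _) (hv0 _) (hv i) con hc
  · rintro ⟨val, h0, h⟩
    have h1 : val 1 = 0 := by
      have := h (false, 1, 1, 1) (by simp [allCons])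
      simpa [Con.Ok] using this
    refine ⟨fun i => val (vx i), ?_, fun i hi => ?_⟩
    · have := h (true, 0, 0, vx 0) (by simp [allCons])
      simpa [Con.Ok, h0] using this.symm
    · have hp : ∀ c ∈ posCons ts i, c.Ok val := fun c hc => h c (by
        simp only [allCons, List.mem_cons, List.mem_flatMap, List.mem_range]
        exact Or.inr (Or.inr ⟨i, hi, hc⟩))
      unfold Local
      unfold posCons at hp
      by_cases e : tk ts i = 3
      · rw [if_pos e] at hp ⊢
        intro j hj a b
        have := hp (true, 0, vx i, vx j) (by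
          simp only [List.mem_map, List.mem_filter, List.mem_range, Bool.and_eq_true,
            decide_eq_true_eq]
          exact ⟨j, ⟨hj, a, b⟩, rfl⟩)
        simpa [Con.Ok, h0] using this
      · rw [if_neg e] at hp ⊢
        exact node_sound val h0 h1 _ _ _ _ (hk i hi) e hp

def toks (x : List Bool) : List ℕ :=
  (List.range (x.length / 4)).map (fun i => (x.getD (4 * i) false).toNat +
    2 * (x.getD (4 * i + 1) false).toNat + 4 * (x.getD (4 * i + 2) false).toNat +
    8 * (x.getD (4 * i + 3) false).toNat)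

theorem toks_cons (a b c d : Bool) (x : List Bool) :
    toks (a :: b :: c :: d :: x) = (a.toNat + 2 * b.toNat + 4 * c.toNat + 8 * d.toNat) :: toks x := by
  unfold toks
  have : (a :: b :: c :: d :: x).length / 4 = x.length / 4 + 1 := by simp; omega
  rw [this, List.range_succ_eq_map, List.map_cons, List.map_map]
  congr 1

theorem toks_flatMap (l : List ℕ) (h : ∀ k ∈ l, k < 16) : toks (l.flatMap symBits) = l := by
  induction l with
  | nil => rfl
  | cons k l ih =>
    have hk := h k (by simp)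
    rw [List.flatMap_cons, symBits]
    simp only [List.cons_append, List.nil_append]
    rw [toks_cons, ih (fun k hk => h k (by simp [hk]))]
    congr 1
    interval_cases k <;> rfl

theorem flatMap_toks : ∀ x : List Bool, x.length % 4 = 0 → (toks x).flatMap symBits = x
  | [], _ => rfl
  | [_], h => by simp at h
  | [_, _], h => by simp at h
  | [_, _, _], h => by simp at h
  | a :: b :: c :: d :: x, h => by
    rw [toks_cons, List.flatMap_cons, flatMap_toks x (by simp at h; omega)]
    cases a <;> cases b <;> cases c <;> cases d <;> rfl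

theorem ws_lt (u : UT) (h : u.WS) : ∀ k ∈ u.syms, k < 16 := by
  induction u with
  | leaf => simp [UT.syms]
  | un k a ih =>
    have := h.1
    unfold arity at this
    simp only [UT.syms, List.mem_cons, forall_eq_or_imp]
    exact ⟨by split_ifs at this <;> omega, ih h.2.2⟩
  | bin k a b iha ihb =>
    have := h.2.1
    simp only [UT.syms, List.mem_cons, forall_eq_or_imp, List.mem_append]
    exact ⟨by omega, fun k hk => hk.elim (iha h.2.2.2.2.1 k) (ihb h.2.2.2.2.2 k)⟩

theorem length_flatMap_symBits (l : List ℕ) : (l.flatMap symBits).length = 4 * l.length := by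
  induction l with
  | nil => rfl
  | cons k l ih => simp [List.flatMap_cons, symBits, ih]; omega

theorem ETR_iff (x : List Bool) :
    ETR x = true ↔ x.length % 4 = 0 ∧ ∃ φ : Fml, toks x = φ.syms ∧ ∃ ρ, φ.Holds ρ := by
  simp only [ETR, decide_eq_true_eq]
  constructor
  · rintro ⟨φ, rfl, h⟩
    refine ⟨by rw [Fml.code, length_flatMap_symBits]; omega, φ, ?_, h⟩
    exact toks_flatMap _ (φ.toUT_syms ▸ ws_lt _ φ.toUT_ws.1)
  · rintro ⟨h4, φ, h, h'⟩
    exact ⟨φ, by rw [Fml.code, ← h, flatMap_toks x h4], h'⟩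

def hardRed (x : List Bool) : List Bool :=
  if (decide (x.length % 4 = 0) && wf (toks x)) then amiBits (nVars (toks x)) (allCons (toks x))
  else [true]

theorem CI_single : CI [true] = false := by
  simp only [CI, decide_eq_false_iff_not]
  rintro ⟨n, A, B, h, -⟩
  have := congrArg List.length h
  simp only [List.length_append, patBits_length, List.length_singleton] at this
  omega

theorem hardRed_spec (x : List Bool) : ETR x = CI (hardRed x) := by
  rw [Bool.eq_iff_iff, ETR_iff, sat_iff_local]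
  unfold hardRed
  split_ifs with h
  · simp only [Bool.and_eq_true, decide_eq_true_eq] at h
    rw [ami_iff (by simp [nVars, vx]) (allCons_lt _), ← local_iff_cons _ h.2]
    simp [h.1, h.2]
  · simp only [Bool.and_eq_true, decide_eq_true_eq] at h
    simp only [CI_single, Bool.false_eq_true, iff_false]
    rintro ⟨a, b, -⟩
    exact h ⟨a, b⟩

end Pool.Agent.Work.MP_49d20d_lc
end

-- merged part: Pool.Agent.Work.MP_49d20d_lc.Member
section
/-! The reduction from constrained invertibility to the existential theory of the reals, and the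
efficiency of both reductions. -/

namespace Pool.Agent.Work.MP_49d20d_lc

open Pool.Agent.Lib.Cx

def vq (q : ℕ) : Term := .var (List.replicate q true)
def cst (b : Bool) : Term := .const false (if b then [true] else [])
def bigSum (l : List Term) : Term := l.foldr Term.add (cst false)
def bigAnd (l : List Fml) : Fml := l.foldr Fml.and (.eq (cst false) (cst false))

def memFml (x : List Bool) (n : ℕ) : Fml :=
  bigAnd (((List.range x.length).filter (fun q => !x.getD q false)).map
      (fun q => Fml.eq (vq q) (cst false)) ++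
    (List.range n).flatMap (fun i => (List.range n).map (fun j =>
      Fml.eq (bigSum ((List.range n).map (fun k => Term.mul (vq (i * n + k)) (vq (n * n + (k * n + j))))))
        (cst (decide (i = j))))))

def vqS (q : ℕ) : List ℕ := 3 :: (List.replicate q 2 ++ [0])
def cstS (b : Bool) : List ℕ := if b then [4, 2, 0] else [4, 0]

def memSyms (x : List Bool) (n : ℕ) : List ℕ :=
  ((List.range x.length).filter (fun q => !x.getD q false)).flatMap
      (fun q => 12 :: 8 :: (vqS q ++ [4, 0])) ++
    (List.range n).flatMap (fun i => (List.range n).flatMap (fun j =>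
      12 :: 8 :: ((List.range n).flatMap (fun k =>
        6 :: 7 :: (vqS (i * n + k) ++ vqS (n * n + (k * n + j)))) ++ [4, 0] ++
        cstS (decide (i = j))))) ++ [8, 4, 0, 4, 0]

theorem vq_syms (q : ℕ) : (vq q).syms = vqS q := by simp [vq, vqS, Term.syms, bitsSyms]

theorem cst_syms (b : Bool) : (cst b).syms = cstS b := by cases b <;> rfl

theorem bigSum_syms (l : List Term) :
    (bigSum l).syms = l.flatMap (fun t => 6 :: t.syms) ++ [4, 0] := by
  induction l with
  | nil => rfl
  | cons t l ih =>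
    simp only [bigSum, List.foldr_cons, Term.syms, List.flatMap_cons] at ih ⊢
    simp [ih]

theorem bigAnd_syms (l : List Fml) :
    (bigAnd l).syms = l.flatMap (fun t => 12 :: t.syms) ++ [8, 4, 0, 4, 0] := by
  induction l with
  | nil => rfl
  | cons t l ih =>
    simp only [bigAnd, List.foldr_cons, Fml.syms, List.flatMap_cons] at ih ⊢
    simp [ih]

theorem memFml_syms (x : List Bool) (n : ℕ) : (memFml x n).syms = memSyms x n := by
  simp only [memFml, memSyms, bigAnd_syms, List.flatMap_append, List.flatMap_map,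
    List.flatMap_assoc, Fml.syms, bigSum_syms, Term.syms, vq_syms, cst_syms]
  rfl

theorem cst_eval (ρ : List Bool → ℝ) (b : Bool) : (cst b).eval ρ = if b then 1 else 0 := by
  cases b <;> simp [cst, Term.eval, binVal]

theorem bigSum_eval (ρ : List Bool → ℝ) (l : List Term) :
    (bigSum l).eval ρ = (l.map (Term.eval ρ)).sum := by
  induction l with
  | nil => simp [bigSum, cst_eval]
  | cons t l ih =>
    simp only [bigSum, List.foldr_cons, Term.eval, List.map_cons, List.sum_cons] at ih ⊢
    rw [ih]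

theorem bigAnd_holds (ρ : List Bool → ℝ) (l : List Fml) :
    (bigAnd l).Holds ρ ↔ ∀ φ ∈ l, φ.Holds ρ := by
  induction l with
  | nil => simp [bigAnd, Fml.Holds]
  | cons t l ih =>
    simp only [bigAnd, List.foldr_cons, Fml.Holds, List.mem_cons, forall_eq_or_imp] at ih ⊢
    rw [ih]

theorem sum_range_list (n : ℕ) (f : ℕ → ℝ) :
    ((List.range n).map f).sum = ∑ k ∈ Finset.range n, f k := rfl

theorem memFml_holds (ρ : List Bool → ℝ) (x : List Bool) (n : ℕ) :
    (memFml x n).Holds ρ ↔
      (∀ q, q < x.length → x.getD q false = false → ρ (List.replicate q true) = 0) ∧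
      ∀ i, i < n → ∀ j, j < n → ∑ k ∈ Finset.range n, ρ (List.replicate (i * n + k) true) *
        ρ (List.replicate (n * n + (k * n + j)) true) = if i = j then 1 else 0 := by
  simp only [memFml, bigAnd_holds, List.mem_append, or_imp, forall_and, List.mem_map,
    List.mem_filter, List.mem_range, List.mem_flatMap]
  refine and_congr ⟨fun h q hq hx => ?_, ?_⟩ ⟨fun h i hi j hj => ?_, ?_⟩
  · have := h _ ⟨q, ⟨hq, by rw [hx]; rfl⟩, rfl⟩
    simpa [Fml.Holds, vq, Term.eval, cst_eval] using this
  · rintro h _ ⟨q, ⟨hq, hx⟩, rfl⟩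
    simpa [Fml.Holds, vq, Term.eval, cst_eval] using h q hq (by simpa using hx)
  · have := h _ ⟨i, hi, j, hj, rfl⟩
    simpa [Fml.Holds, vq, Term.eval, cst_eval, bigSum_eval, Function.comp_def, sum_range_list]
      using this
  · rintro h _ ⟨i, hi, j, hj, rfl⟩
    have := h i hi j hj
    simpa [Fml.Holds, vq, Term.eval, cst_eval, bigSum_eval, Function.comp_def, sum_range_list]
      using this

theorem flatMap_range_getElem? {δ : Type} (n : ℕ) (g : ℕ → List δ) (hg : ∀ i, (g i).length = n)
    (m : ℕ) : ((List.range m).flatMap g).length = m * n ∧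
      ∀ i, i < m → ∀ j, j < n → ((List.range m).flatMap g)[i * n + j]? = (g i)[j]? := by
  induction m with
  | zero => simp
  | succ m ih =>
    obtain ⟨h1, h2⟩ := ih
    rw [List.range_succ, List.flatMap_append]
    refine ⟨by simp [h1, hg, Nat.succ_mul], fun i hi j hj => ?_⟩
    by_cases e : i = m
    · subst e
      rw [List.getElem?_append_right (by omega), h1]
      simp
    · have : (i + 1) * n ≤ m * n := Nat.mul_le_mul_right _ (by omega)
      rw [Nat.succ_mul] at this
      rw [List.getElem?_append_left (by omega), h2 i (by omega) j hj]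

theorem matBits_length (n : ℕ) (f : ℕ → ℕ → Bool) : (matBits n f).length = n * n :=
  (flatMap_range_getElem? n _ (by simp) n).1

theorem matBits_get (n : ℕ) (f : ℕ → ℕ → Bool) (i j : ℕ) (hi : i < n) (hj : j < n) :
    (matBits n f)[i * n + j]? = some (f i j) := by
  rw [matBits, (flatMap_range_getElem? n _ (by simp) n).2 i hi j hj]
  simp [hj]

theorem split_idx {n q : ℕ} (h : q < n * n) : ∃ i j, i < n ∧ j < n ∧ q = i * n + j := by
  have hn : 0 < n := by
    rcases Nat.eq_zero_or_pos n with rfl | h'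
    · simp at h
    · exact h'
  exact ⟨q / n, q % n, Nat.div_lt_of_lt_mul h, Nat.mod_lt _ hn, (Nat.div_add_mod' q n).symm⟩

theorem idx_lt {n i j : ℕ} (hi : i < n) (hj : j < n) : i * n + j < n * n := by
  have : (i + 1) * n ≤ n * n := Nat.mul_le_mul_right _ hi
  rw [Nat.succ_mul] at this
  omega

theorem eq_matBits (x : List Bool) (n : ℕ) (h : x.length = 2 * (n * n)) :
    x = matBits n (fun i j => x.getD (i * n + j) false) ++
      matBits n (fun i j => x.getD (n * n + (i * n + j)) false) := by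
  refine List.ext_getElem? (fun q => ?_)
  by_cases h1 : q < n * n
  · obtain ⟨i, j, hi, hj, rfl⟩ := split_idx h1
    rw [List.getElem?_append_left (by rw [matBits_length]; exact h1), matBits_get _ _ _ _ hi hj]
    have : i * n + j < x.length := by omega
    simp [List.getD_eq_getElem?_getD, this]
  · rw [List.getElem?_append_right (by rw [matBits_length]; omega), matBits_length]
    by_cases h2 : q - n * n < n * n
    · obtain ⟨i, j, hi, hj, e⟩ := split_idx h2
      rw [e, matBits_get _ _ _ _ hi hj, ← e, show n * n + (q - n * n) = q by omega]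
      have : q < x.length := by omega
      simp [List.getD_eq_getElem?_getD, this]
    · rw [List.getElem?_eq_none (by omega), List.getElem?_eq_none (by rw [matBits_length]; omega)]

theorem CI_iff_memFml (x : List Bool) (n : ℕ) (h : x.length = 2 * (n * n)) :
    CI x = true ↔ ∃ ρ, (memFml x n).Holds ρ := by
  classical
  conv_lhs => rw [eq_matBits x n h, ← patBits_of, ← patBits_of, CI_patBits]
  simp only [memFml_holds]
  constructor
  · rintro ⟨M, N, hM, hN, hMN⟩
    let M' : ℕ → ℕ → ℝ := fun i j => if h : i < n ∧ j < n then M ⟨i, h.1⟩ ⟨j, h.2⟩ else 0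
    let N' : ℕ → ℕ → ℝ := fun i j => if h : i < n ∧ j < n then N ⟨i, h.1⟩ ⟨j, h.2⟩ else 0
    let r : ℕ → ℝ := fun q => if q < n * n then M' (q / n) (q % n)
      else N' ((q - n * n) / n) ((q - n * n) % n)
    have dm : ∀ i j, j < n → (i * n + j) / n = i ∧ (i * n + j) % n = j := by
      intro i j hj
      constructor
      · rw [Nat.add_comm, Nat.add_mul_div_right _ _ (by omega), Nat.div_eq_of_lt hj, zero_add]
      · rw [Nat.add_comm, Nat.add_mul_mod_self_right, Nat.mod_eq_of_lt hj]
    have r1 : ∀ i j (hi : i < n) (hj : j < n), r (i * n + j) = M ⟨i, hi⟩ ⟨j, hj⟩ := by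
      intro i j hi hj
      simp [r, M', idx_lt hi hj, dm i j hj, hi, hj]
    have r2 : ∀ i j (hi : i < n) (hj : j < n), r (n * n + (i * n + j)) = N ⟨i, hi⟩ ⟨j, hj⟩ := by
      intro i j hi hj
      simp [r, N', dm i j hj, hi, hj]
    refine ⟨fun l => r l.length, fun q hq hx => ?_, fun i hi j hj => ?_⟩
    · simp only [List.length_replicate]
      by_cases h1 : q < n * n
      · obtain ⟨i, j, hi, hj, rfl⟩ := split_idx h1
        rw [r1 i j hi hj]
        exact hM _ _ hx
      · obtain ⟨i, j, hi, hj, e⟩ := split_idx (show q - n * n < n * n by omega)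
        have : q = n * n + (i * n + j) := by omega
        subst this
        rw [r2 i j hi hj]
        exact hN _ _ hx
    · have := congrFun (congrFun hMN ⟨i, hi⟩) ⟨j, hj⟩
      rw [Matrix.mul_apply, Matrix.one_apply] at this
      simp only [List.length_replicate, Finset.sum_range]
      rw [Finset.sum_congr rfl (fun k _ => by rw [r1 i k hi k.2, r2 k j k.2 hj]), this]
      simp
  · rintro ⟨ρ, h1, h2⟩
    refine ⟨Matrix.of (fun i j => ρ (List.replicate (i.val * n + j.val) true)),
      Matrix.of (fun i j => ρ (List.replicate (n * n + (i.val * n + j.val)) true)), ?_, ?_, ?_⟩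
    · intro i j hij
      have := idx_lt i.2 j.2
      exact h1 _ (by omega) hij
    · intro i j hij
      have := idx_lt i.2 j.2
      exact h1 _ (by omega) hij
    · ext i j
      have := h2 i i.2 j j.2
      rw [Finset.sum_range] at this
      rw [Matrix.mul_apply, Matrix.one_apply]
      simp only [Matrix.of_apply, this, Fin.ext_iff]

def symBits' (k : ℕ) : List Bool :=
  [decide (k % 2 = 1), decide (k / 2 % 2 = 1), decide (k / 4 % 2 = 1), decide (k / 8 % 2 = 1)]

theorem symBits_eq : symBits = symBits' := by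
  funext k
  simp [symBits, symBits', Nat.testBit_eq_decide_div_mod_eq]

def memRed (x : List Bool) : List Bool :=
  if x.length = 2 * (Nat.sqrt (x.length / 2) * Nat.sqrt (x.length / 2)) then
    (memSyms x (Nat.sqrt (x.length / 2))).flatMap symBits'
  else []

theorem ETR_code (φ : Fml) : ETR φ.code = true ↔ ∃ ρ, φ.Holds ρ := by
  rw [ETR_iff, Fml.code, toks_flatMap _ (φ.toUT_syms ▸ ws_lt _ φ.toUT_ws.1)]
  constructor
  · rintro ⟨-, ψ, h, ρ, hρ⟩
    have h1 := nd_eq φ.syms φ.toUT φ.toUT_ws.1 0 ⟨[], by simp [Fml.toUT_syms]⟩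
    have h2 := nd_eq φ.syms ψ.toUT ψ.toUT_ws.1 0 ⟨[], by simp [Fml.toUT_syms, h]⟩
    have h3 := Fml.toUT_val (fun l => ρ (unBits l)) φ
    have h4 := Fml.toUT_val (fun l => ρ (unBits l)) ψ
    have e : (fun n => ρ (unBits (bitsSyms n))) = ρ := funext fun n => by rw [unBits_bitsSyms]
    rw [e] at h3 h4
    rw [← h1, h2, h4, if_pos hρ] at h3
    refine ⟨ρ, ?_⟩
    by_contra hc
    simp [hc] at h3
  · intro h
    exact ⟨by rw [length_flatMap_symBits]; omega, φ, rfl, h⟩

theorem memRed_spec (x : List Bool) : CI x = ETR (memRed x) := by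
  rw [Bool.eq_iff_iff]
  unfold memRed
  split_ifs with h
  · rw [CI_iff_memFml x _ h, ← symBits_eq, ← memFml_syms, ← Fml.code, ETR_code]
  · constructor
    · intro hc
      exfalso
      simp only [CI, decide_eq_true_eq] at hc
      obtain ⟨n, A, B, rfl, -⟩ := hc
      apply h
      simp only [List.length_append, patBits_length]
      rw [show (n * n + n * n) / 2 = n * n by omega, Nat.sqrt_eq]
      omega
    · intro hc
      exfalso
      rw [ETR_iff] at hc
      obtain ⟨-, φ, h, -⟩ := hc
      have := syms_pos φ.toUT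
      rw [Fml.toUT_syms, ← h] at this
      simp [toks] at this

/-! Both reductions are computable in logarithmic space. -/

theorem ls_memRed : LS memRed := by
  unfold memRed memSyms symBits' vqS cstS
  fun_prop

@[fun_prop] theorem ls_arity : LS arity := by unfold arity; fun_prop
@[fun_prop] theorem ls_sort : LS sort := by unfold sort; fun_prop
@[fun_prop] theorem ls_csort : LS csort := by unfold csort; fun_prop
@[fun_prop] theorem ls_toks : LS toks := by unfold toks; fun_prop
@[fun_prop] theorem ls_tk : LS (fun p : List ℕ × ℕ => tk p.1 p.2) := by unfold tk; fun_prop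
@[fun_prop] theorem ls_subSz : LS (fun p : List ℕ × ℕ => subSz p.1 p.2) := by
  unfold subSz arSum; fun_prop
@[fun_prop] theorem ls_c2 : LS (fun p : List ℕ × ℕ => c2 p.1 p.2) := by unfold c2; fun_prop
@[fun_prop] theorem ls_subAt : LS (fun p : List ℕ × ℕ => subAt p.1 p.2) := by
  unfold subAt; fun_prop
@[fun_prop] theorem ls_locOk : LS (fun p : List ℕ × ℕ => locOk p.1 p.2) := by
  unfold locOk; fun_prop
@[fun_prop] theorem ls_wf : LS wf := by unfold wf; fun_prop
@[fun_prop] theorem ls_vx : LS vx := by unfold vx; fun_prop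
@[fun_prop] theorem ls_ltCons :
    LS (fun p : ℕ × ℕ × ℕ × ℕ => ltCons p.1 p.2.1 p.2.2.1 p.2.2.2) := by
  unfold ltCons; fun_prop
@[fun_prop] theorem ls_nodeCons :
    LS (fun p : ℕ × ℕ × ℕ × ℕ => nodeCons p.1 p.2.1 p.2.2.1 p.2.2.2) := by
  unfold nodeCons; fun_prop
@[fun_prop] theorem ls_posCons : LS (fun p : List ℕ × ℕ => posCons p.1 p.2) := by
  unfold posCons; fun_prop
@[fun_prop] theorem ls_allCons : LS allCons := by unfold allCons; fun_prop
@[fun_prop] theorem ls_nVars : LS nVars := by unfold nVars; fun_prop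
@[fun_prop] theorem ls_kind : LS (fun p : ℕ × ℕ => kind p.1 p.2) := by unfold kind; fun_prop
@[fun_prop] theorem ls_aRow : LS (fun p : ℕ × ℕ => aRow p.1 p.2) := by unfold aRow; fun_prop
@[fun_prop] theorem ls_aNz : LS (fun p : ℕ × ℕ => aNz p.1 p.2) := by unfold aNz; fun_prop
@[fun_prop] theorem ls_aPat : LS (fun p : ℕ × ℕ × ℕ => aPat p.1 p.2.1 p.2.2) := by
  unfold aPat; fun_prop
@[fun_prop] theorem ls_varL : LS varL := by unfold varL; fun_prop
@[fun_prop] theorem ls_conL : LS (fun p : ℕ × Con => conL p.1 p.2) := by unfold conL; fun_prop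
@[fun_prop] theorem ls_aL : LS (fun p : ℕ × List Con => aL p.1 p.2) := by unfold aL; fun_prop
@[fun_prop] theorem ls_amiBits : LS (fun p : ℕ × List Con => amiBits p.1 p.2) := by
  unfold amiBits geoBits matBits patA patB gRow gCol gCons; fun_prop

theorem ls_hardRed : LS hardRed := by unfold hardRed; fun_prop

end Pool.Agent.Work.MP_49d20d_lc
end
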